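import Mathlib

set_option autoImplicit false

/-!
Construction of asymptotic bases of order `h = g + 2` whose n-th element is within
`ε * lam * n ^ (h - 1)` of `lam * n ^ h`.
-/

namespace Pool.Agent.helper85.CasselsEps

/-- Discrete intermediate value. -/
lemma exists_between {α : Type*} [LinearOrder α] (G : ℕ → α) (a b : ℕ) (v : α) (hab : a < b)
    (h1 : G a ≤ v) (h2 : v < G b) :
    ∃ j, a ≤ j ∧ j < b ∧ G j ≤ v ∧ v < G (j + 1) := by
  obtain ⟨d, rfl⟩ : ∃ d, b = a + 1 + d := ⟨b - (a + 1), by omega⟩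
  induction d with
  | zero => exact ⟨a, le_refl _, by omega, h1, h2⟩
  | succ d ih =>
    by_cases h3 : v < G (a + 1 + d)
    · obtain ⟨j, hj1, hj2, hj3, hj4⟩ := ih (by omega) h3
      exact ⟨j, hj1, by omega, hj3, hj4⟩
    · exact ⟨a + 1 + d, by omega, by omega, not_lt.mp h3, h2⟩

/-- Among `p` consecutive naturals one solves a linear congruence with invertible coefficient. -/
lemma exists_congr (p : ℕ) (hp : 0 < p) (R : ℕ) (hR : Nat.Coprime R p) (c : ℤ) (k1 : ℕ) :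
    ∃ k, k1 ≤ k ∧ k < k1 + p ∧ (p : ℤ) ∣ c - R * k := by
  have : NeZero p := ⟨hp.ne'⟩
  let u := ZMod.unitOfCoprime R hR
  let t : ZMod p := (u⁻¹ : (ZMod p)ˣ) * (c : ZMod p)
  refine ⟨k1 + (t - (k1 : ZMod p)).val, by omega, ?_, ?_⟩
  · have := ZMod.val_lt (t - (k1 : ZMod p))
    omega
  · rw [← ZMod.intCast_zmod_eq_zero_iff_dvd]
    push_cast
    rw [ZMod.natCast_zmod_val]
    have h1 : (R : ZMod p) * (u⁻¹ : (ZMod p)ˣ) = 1 := by
      have : (R : ZMod p) = (u : ZMod p) := (ZMod.coe_unitOfCoprime R hR).symm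
      rw [this]
      simp
    have h2 : (R : ZMod p) * t = (c : ZMod p) := by
      show (R : ZMod p) * (((u⁻¹ : (ZMod p)ˣ) : ZMod p) * (c : ZMod p)) = (c : ZMod p)
      rw [← mul_assoc, h1, one_mul]
    have h3 : (k1 : ZMod p) + (t - k1) = t := by ring
    rw [h3, h2, sub_self]

/-- Crossing lemma: a decreasing sequence of targets running through all residues meets the
integer parts of a nearly arithmetic progression with gap `p`. -/
lemma cross (p : ℕ) (hp : 0 < p) (Ψ : ℕ → ℝ) (ja H : ℕ)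
    (hlo : ∀ j, ja ≤ j → j < ja + H → (p : ℝ) ≤ Ψ (j + 1) - Ψ j)
    (hhi : Ψ (ja + H) - Ψ ja < p * H + 1)
    (v : ℕ → ℤ) (k0 : ℕ)
    (hdec : ∀ k, k0 ≤ k → k < k0 + 2 * p → v (k + 1) < v k)
    (hvlo : ⌊Ψ ja⌋ ≤ v (k0 + 2 * p))
    (hvhi : v k0 ≤ ⌊Ψ ja⌋ + p * H)
    (R : ℕ) (hR : Nat.Coprime R p) (C : ℤ)
    (hmod : ∀ k, k0 ≤ k → k ≤ k0 + 2 * p → (p : ℤ) ∣ v k - (C - R * k)) :
    ∃ k j, k0 ≤ k ∧ k ≤ k0 + 2 * p ∧ ja ≤ j ∧ j ≤ ja + H ∧ v k = ⌊Ψ j⌋ := by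
  have hpz : (0 : ℤ) < p := by exact_mod_cast hp
  -- excess function
  let E : ℕ → ℤ := fun m => ⌊Ψ (ja + m)⌋ - ⌊Ψ ja⌋ - p * m
  have hE0 : E 0 = 0 := by simp [E]
  have hEstep : ∀ m, m < H → E m ≤ E (m + 1) := by
    intro m hm
    have h1 := hlo (ja + m) (by omega) (by omega)
    have h2 : ⌊Ψ (ja + m)⌋ + (p : ℤ) ≤ ⌊Ψ (ja + (m + 1))⌋ := by
      rw [Int.le_floor]
      push_cast
      have h3 := Int.floor_le (Ψ (ja + m))
      have h4 : ja + (m + 1) = ja + m + 1 := by ring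
      rw [h4]
      linarith
    show ⌊Ψ (ja + m)⌋ - ⌊Ψ ja⌋ - p * (m : ℤ) ≤ ⌊Ψ (ja + (m + 1))⌋ - ⌊Ψ ja⌋ - p * ((m + 1 : ℕ) : ℤ)
    push_cast
    linarith
  have hEmono : ∀ d m, m + d ≤ H → E m ≤ E (m + d) := by
    intro d
    induction d with
    | zero => intro m _; exact le_refl _
    | succ d ih =>
      intro m hm
      have h1 := ih m (by omega)
      have h2 := hEstep (m + d) (by omega)
      exact h1.trans h2
  have hEmono' : ∀ m m', m ≤ m' → m' ≤ H → E m ≤ E m' := by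
    intro m m' h1 h2
    have := hEmono (m' - m) m (by omega)
    rwa [show m + (m' - m) = m' by omega] at this
  have hEH : E H ≤ 1 := by
    have h1 : ⌊Ψ (ja + H)⌋ < ⌊Ψ ja⌋ + p * H + 2 := by
      have h2 : (⌊Ψ (ja + H)⌋ : ℝ) < ((⌊Ψ ja⌋ + p * H + 2 : ℤ) : ℝ) := by
        push_cast
        have h3 := Int.floor_le (Ψ (ja + H))
        have h4 := Int.lt_floor_add_one (Ψ ja)
        linarith
      exact_mod_cast h2
    show ⌊Ψ (ja + H)⌋ - ⌊Ψ ja⌋ - p * (H : ℤ) ≤ 1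
    linarith
  have hE01 : ∀ m, m ≤ H → E m = 0 ∨ E m = 1 := by
    intro m hm
    have h1 := hEmono' 0 m (by omega) hm
    have h2 := hEmono' m H hm (le_refl _)
    rw [hE0] at h1
    have h3 : E m ≤ 1 := h2.trans hEH
    omega
  have hG : ∀ m, ⌊Ψ (ja + m)⌋ = ⌊Ψ ja⌋ + p * m + E m := by
    intro m
    show ⌊Ψ (ja + m)⌋ = ⌊Ψ ja⌋ + p * m + (⌊Ψ (ja + m)⌋ - ⌊Ψ ja⌋ - p * m)
    ring
  -- monotonicity of v
  have hvmono : ∀ d k, k0 ≤ k → k + d ≤ k0 + 2 * p → v (k + d) + d ≤ v k := by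
    intro d
    induction d with
    | zero => intro k _ _; simp
    | succ d ih =>
      intro k h1 h2
      have h3 := ih k h1 (by omega)
      have h4 := hdec (k + d) (by omega) (by omega)
      have h5 : v (k + (d + 1)) < v (k + d) := h4
      push_cast
      linarith
  have hvle : ∀ k k', k0 ≤ k → k ≤ k' → k' ≤ k0 + 2 * p → v k' ≤ v k := by
    intro k k' h1 h2 h3
    have := hvmono (k' - k) k h1 (by omega)
    rw [show k + (k' - k) = k' by omega] at this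
    have h4 : (0 : ℤ) ≤ ((k' - k : ℕ) : ℤ) := by positivity
    linarith
  have hvlt : ∀ k k', k0 ≤ k → k < k' → k' ≤ k0 + 2 * p → v k' + 1 ≤ v k := by
    intro k k' h1 h2 h3
    have := hvmono (k' - k) k h1 (by omega)
    rw [show k + (k' - k) = k' by omega] at this
    have h4 : (1 : ℤ) ≤ ((k' - k : ℕ) : ℤ) := by
      have : 1 ≤ k' - k := by omega
      exact_mod_cast this
    linarith
  -- the middle target
  have hmidlo : ⌊Ψ ja⌋ ≤ v (k0 + p) := hvlo.trans (hvle (k0 + p) (k0 + 2 * p) (by omega) (by omega) (le_refl _))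
  have hmidhi : v (k0 + p) ≤ ⌊Ψ ja⌋ + p * H := (hvle k0 (k0 + p) (le_refl _) (by omega) (by omega)).trans hvhi
  obtain ⟨q, hq⟩ : ∃ q : ℕ, (q : ℤ) = (v (k0 + p) - ⌊Ψ ja⌋) / p := by
    refine ⟨((v (k0 + p) - ⌊Ψ ja⌋) / p).toNat, ?_⟩
    rw [Int.toNat_of_nonneg]
    exact Int.ediv_nonneg (by linarith) hpz.le
  have hq1 : (p : ℤ) * q ≤ v (k0 + p) - ⌊Ψ ja⌋ := by
    rw [hq]; exact Int.mul_ediv_self_le hpz.ne'
  have hq2 : v (k0 + p) - ⌊Ψ ja⌋ < p * (q + 1) := by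
    rw [hq]
    have := Int.lt_ediv_add_one_mul_self (v (k0 + p) - ⌊Ψ ja⌋) hpz
    linarith [mul_comm ((v (k0 + p) - ⌊Ψ ja⌋) / (p:ℤ) + 1) (p:ℤ)]
  have hqH : q ≤ H := by
    have h1 : (p : ℤ) * q ≤ p * H := by linarith
    have h2 : (q : ℤ) ≤ H := le_of_mul_le_mul_left h1 hpz
    exact_mod_cast h2
  rcases hE01 q hqH with hc | hc
  · -- use later indices
    obtain ⟨k, hk1, hk2, hk3⟩ := exists_congr p hp R hR (C - ⌊Ψ ja⌋) (k0 + p + 1)
    have hk4 := hmod k (by omega) (by omega)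
    have hk5 : (p : ℤ) ∣ v k - ⌊Ψ ja⌋ := by
      have : v k - ⌊Ψ ja⌋ = (v k - (C - R * k)) + (C - ⌊Ψ ja⌋ - R * k) := by ring
      rw [this]; exact dvd_add hk4 hk3
    obtain ⟨m, hm⟩ := hk5
    have hvk1 : ⌊Ψ ja⌋ ≤ v k := hvlo.trans (hvle k (k0 + 2 * p) (by omega) (by omega) (le_refl _))
    have hvk2 : v k ≤ v (k0 + p) := hvle (k0 + p) k (by omega) (by omega) (by omega)
    have hm0 : 0 ≤ m := by
      by_contra hneg
      push Not at hneg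
      have : (p : ℤ) * m < 0 := mul_neg_of_pos_of_neg hpz hneg
      linarith
    have hmq : m < q + 1 := by
      have : (p : ℤ) * m < p * (q + 1) := by linarith
      exact lt_of_mul_lt_mul_left this hpz.le
    obtain ⟨m', rfl⟩ : ∃ m' : ℕ, m = m' := ⟨m.toNat, (Int.toNat_of_nonneg hm0).symm⟩
    have hmq' : m' ≤ q := by
      have : (m' : ℤ) ≤ q := by linarith
      exact_mod_cast this
    have hEm : E m' = 0 := by
      rcases hE01 m' (by omega) with h | h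
      · exact h
      · have := hEmono' m' q hmq' hqH
        rw [h, hc] at this
        omega
    refine ⟨k, ja + m', by omega, by omega, by omega, by omega, ?_⟩
    rw [hG, hEm]
    linarith
  · obtain ⟨k, hk1, hk2, hk3⟩ := exists_congr p hp R hR (C - (⌊Ψ ja⌋ + 1)) k0
    have hk4 := hmod k (by omega) (by omega)
    have hk5 : (p : ℤ) ∣ v k - (⌊Ψ ja⌋ + 1) := by
      have : v k - (⌊Ψ ja⌋ + 1) = (v k - (C - R * k)) + (C - (⌊Ψ ja⌋ + 1) - R * k) := by ring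
      rw [this]; exact dvd_add hk4 hk3
    obtain ⟨m, hm⟩ := hk5
    have hvk2 : v (k0 + p) + 1 ≤ v k := hvlt k (k0 + p) (by omega) (by omega) (by omega)
    have hvk3 : v k ≤ v k0 := hvle k0 k (le_refl _) (by omega) (by omega)
    have hmq : q ≤ m := by
      have : (p : ℤ) * q ≤ p * m := by linarith
      exact le_of_mul_le_mul_left this hpz
    have hm0 : 0 ≤ m := le_trans (by positivity) hmq
    obtain ⟨m', rfl⟩ : ∃ m' : ℕ, m = m' := ⟨m.toNat, (Int.toNat_of_nonneg hm0).symm⟩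
    have hmH : m' ≤ H := by
      have h1 : (p : ℤ) * m' < p * (H + 1) := by
        have : (p : ℤ) * (H + 1) = p * H + p := by ring
        linarith
      have h2 : (m' : ℤ) < H + 1 := lt_of_mul_lt_mul_left h1 hpz.le
      have h3 : m' < H + 1 := by exact_mod_cast h2
      omega
    have hmq' : q ≤ m' := by exact_mod_cast hmq
    have hEm : E m' = 1 := by
      rcases hE01 m' hmH with h | h
      · have := hEmono' q m' hmq' hmH
        rw [h, hc] at this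
        omega
      · exact h
    refine ⟨k, ja + m', by omega, by omega, by omega, by omega, ?_⟩
    rw [hG, hEm]
    linarith

/-- sums of gap bounds -/
lemma tele_lower (f : ℕ → ℝ) (g : ℝ) (a d : ℕ) (h : ∀ j, a ≤ j → j < a + d → g ≤ f (j + 1) - f j) :
    g * d ≤ f (a + d) - f a := by
  induction d with
  | zero => simp
  | succ d ih =>
    have h1 := ih (fun j hj1 hj2 => h j hj1 (by omega))
    have h2 := h (a + d) (by omega) (by omega)
    rw [show a + (d + 1) = a + d + 1 by ring]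
    push_cast
    linarith

lemma tele_upper (f : ℕ → ℝ) (g : ℝ) (a d : ℕ) (h : ∀ j, a ≤ j → j < a + d → f (j + 1) - f j ≤ g) :
    f (a + d) - f a ≤ g * d := by
  induction d with
  | zero => simp
  | succ d ih =>
    have h1 := ih (fun j hj1 hj2 => h j hj1 (by omega))
    have h2 := h (a + d) (by omega) (by omega)
    rw [show a + (d + 1) = a + d + 1 by ring]
    push_cast
    linarith

/-- hitting a block -/
lemma block_hit (p : ℕ) (hp : 0 < p) (Ψ : ℕ → ℝ) (j0 L H : ℕ) (τ : ℝ) (hτ : τ * H < 1)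
    (hH : 1 ≤ H)
    (hlo : ∀ j, j0 ≤ j → j < j0 + L → (p : ℝ) ≤ Ψ (j + 1) - Ψ j)
    (hhi : ∀ j, j0 ≤ j → j < j0 + L → Ψ (j + 1) - Ψ j ≤ p + τ)
    (v : ℕ → ℤ) (k0 : ℕ)
    (hdec : ∀ k, k0 ≤ k → k < k0 + 2 * p → v (k + 1) < v k)
    (hvlo : ⌊Ψ j0⌋ ≤ v (k0 + 2 * p))
    (hvhi : (v k0 : ℝ) + 1 + (p + 1) * H ≤ Ψ (j0 + L))
    (hext : v k0 - v (k0 + 2 * p) + p ≤ p * H)
    (R : ℕ) (hR : Nat.Coprime R p) (C : ℤ)
    (hmod : ∀ k, k0 ≤ k → k ≤ k0 + 2 * p → (p : ℤ) ∣ v k - (C - R * k)) :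
    ∃ k j, k0 ≤ k ∧ k ≤ k0 + 2 * p ∧ j0 ≤ j ∧ j < j0 + L ∧ v k = ⌊Ψ j⌋ := by
  have hpz : (0 : ℤ) < p := by exact_mod_cast hp
  have hpr : (0 : ℝ) < p := by exact_mod_cast hp
  have hτ1 : τ < 1 := by
    have h1 : (1 : ℝ) ≤ H := by exact_mod_cast hH
    nlinarith
  have hvk : v (k0 + 2 * p) ≤ v k0 := by
    have : ∀ d, d ≤ 2 * p → v (k0 + d) ≤ v k0 := by
      intro d
      induction d with
      | zero => intro _; exact le_refl _
      | succ d ih =>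
        intro hd
        have h1 := ih (by omega)
        have h2 := hdec (k0 + d) (by omega) (by omega)
        have h3 : v (k0 + (d + 1)) < v (k0 + d) := h2
        linarith
    exact this _ (le_refl _)
  have hvend : v (k0 + 2 * p) < ⌊Ψ (j0 + L)⌋ := by
    have h1 : ((v (k0 + 2 * p) + 1 : ℤ) : ℝ) ≤ Ψ (j0 + L) := by
      push_cast
      have h2 : (v (k0 + 2 * p) : ℝ) ≤ v k0 := by exact_mod_cast hvk
      have h3 : (0 : ℝ) ≤ (p + 1) * H := by positivity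
      linarith
    have := Int.le_floor.mpr h1
    omega
  have hL : 0 < L := by
    by_contra h
    have : L = 0 := by omega
    subst this
    simp at hvend
    omega
  obtain ⟨ja, hja1, hja2, hja3, hja4⟩ :=
    exists_between (fun j => ⌊Ψ j⌋) j0 (j0 + L) (v (k0 + 2 * p)) (by omega) hvlo hvend
  -- ja + H < j0 + L
  have hjaH : ja + H < j0 + L := by
    by_contra hcon
    push Not at hcon
    obtain ⟨e, he⟩ : ∃ e, j0 + L = ja + e := ⟨j0 + L - ja, by omega⟩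
    have heH : e ≤ H := by omega
    have h1 := tele_upper Ψ (p + τ) ja e (fun j hj1 hj2 => hhi j (by omega) (by omega))
    rw [← he] at h1
    have h2 : Ψ ja < v (k0 + 2 * p) + 1 := by
      have h3 := Int.lt_floor_add_one (Ψ ja)
      have h4 : (⌊Ψ ja⌋ : ℝ) ≤ v (k0 + 2 * p) := by exact_mod_cast hja3
      linarith
    have h5 : (v (k0 + 2 * p) : ℝ) ≤ v k0 := by exact_mod_cast hvk
    have h6 : (e : ℝ) ≤ H := by exact_mod_cast heH
    have h7 : (p + τ) * (e : ℝ) ≤ (p + 1) * H := by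
      apply mul_le_mul (by linarith) h6 (by positivity) (by positivity)
    linarith
  have hwin : Ψ (ja + H) - Ψ ja < p * H + 1 := by
    have h1 := tele_upper Ψ (p + τ) ja H (fun j hj1 hj2 => hhi j (by omega) (by omega))
    nlinarith
  have hstep : ⌊Ψ (ja + 1)⌋ ≤ ⌊Ψ ja⌋ + p + 1 := by
    have h1 := hhi ja hja1 hja2
    have h2 : (⌊Ψ (ja + 1)⌋ : ℝ) < ((⌊Ψ ja⌋ + p + 2 : ℤ) : ℝ) := by
      push_cast
      have h3 := Int.floor_le (Ψ (ja + 1))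
      have h4 := Int.lt_floor_add_one (Ψ ja)
      linarith
    have h5 : ⌊Ψ (ja + 1)⌋ < ⌊Ψ ja⌋ + p + 2 := by exact_mod_cast h2
    omega
  have hja4' : v (k0 + 2 * p) < ⌊Ψ (ja + 1)⌋ := hja4
  have hvhi' : v k0 ≤ ⌊Ψ ja⌋ + p * H := by linarith
  obtain ⟨k, j, hk1, hk2, hj1, hj2, hkj⟩ := cross p hp Ψ ja H
    (fun j hj1 hj2 => hlo j (by omega) (by omega)) hwin v k0 hdec hja3 hvhi' R hR C hmod
  exact ⟨k, j, hk1, hk2, by omega, by omega, hkj⟩

lemma exists_congr_ge (P : ℕ) (hP : 0 < P) (x u0 : ℕ) (hx : x < P) :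
    ∃ u, u0 ≤ u ∧ u < u0 + P ∧ u % P = x := by
  refine ⟨u0 + (x + (P - u0 % P)) % P, by omega, ?_, ?_⟩
  · have := Nat.mod_lt (x + (P - u0 % P)) hP
    omega
  · have h1 := Nat.mod_lt u0 hP
    rw [Nat.add_mod, Nat.mod_mod, ← Nat.add_mod]
    have h0 := Nat.div_add_mod u0 P
    have h2 : u0 + (x + (P - u0 % P)) = x + P * (u0 / P + 1) := by
      rw [mul_add, mul_one]; omega
    rw [h2, Nat.add_mul_mod_self_left]
    exact Nat.mod_eq_of_lt hx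

/-- One stage of the covering. -/
lemma stage (p ℓ P : ℕ) (hp : 0 < p) (hℓ : 2 * p < ℓ) (hP : 0 < P)
    (Φ : ℕ → ℝ) (F : ℕ → ℤ) (Γ E : ℝ) (kA kB kB' : ℕ)
    (hkAB : kA < kB') (hkBB : kB' + ℓ * (P + 2) ≤ kB)
    (hΦ0 : ∀ k, kA ≤ k → k < kB → 0 ≤ Φ (k + 1) - Φ k)
    (hΦ1 : ∀ k, kA ≤ k → k < kB → Φ (k + 1) - Φ k ≤ Γ)
    (hF : ∀ k, kA ≤ k → k ≤ kB → |(F k : ℝ) - Φ k| ≤ E)
    (hFinc : ∀ u, kA ≤ u * ℓ → u * ℓ + ℓ ≤ kB → ∀ k, u * ℓ ≤ k → k + 1 < u * ℓ + ℓ →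
      F k < F (k + 1))
    (hFmod : ∀ u, kA ≤ u * ℓ → u * ℓ + ℓ ≤ kB → ∃ R : ℕ, Nat.Coprime R p ∧
      ∀ k, u * ℓ ≤ k → k < u * ℓ + ℓ → (p : ℤ) ∣ F k - R * k)
    (Ψ : ℕ → ℝ) (j0 L1 L2 H : ℕ) (τ : ℝ) (hτ : τ * H < 1) (hH : 1 ≤ H)
    (hlo : ∀ j, j0 ≤ j → j < j0 + (L1 + L2) → (p : ℝ) ≤ Ψ (j + 1) - Ψ j)
    (hhi : ∀ j, j0 ≤ j → j < j0 + (L1 + L2) → Ψ (j + 1) - Ψ j ≤ p + τ)
    (B : ℤ)
    (hB1 : Φ kA ≤ B - Ψ (j0 + L1)) (hB2 : B - Ψ (j0 + L1) < Φ kB')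
    (hc1 : ℓ * (P + 1) * Γ + E ≤ p * L1)
    (hc2 : Γ + E + 1 + (p + 1) * H ≤ p * L2)
    (hc3 : 2 * p * Γ + 2 * E + p ≤ p * H)
    (x : ℕ) (hx : x < P) :
    ∃ u k j, u % P = x ∧ kA ≤ u * ℓ ∧ u * ℓ + ℓ ≤ kB ∧ u * ℓ ≤ k ∧ k < u * ℓ + ℓ ∧
      j0 ≤ j ∧ j < j0 + (L1 + L2) ∧ F k + ⌊Ψ j⌋ = B := by
  have hℓ0 : 0 < ℓ := by omega
  obtain ⟨κ, hκ1, hκ2, hκ3, hκ4⟩ := exists_between Φ kA kB' (B - Ψ (j0 + L1)) hkAB hB1 hB2
  obtain ⟨u, hu1, hu2, hu3⟩ := exists_congr_ge P hP x (κ / ℓ + 1) hx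
  have hdm := Nat.div_add_mod κ ℓ
  have hml := Nat.mod_lt κ hℓ0
  have huκ1 : κ < u * ℓ := by
    have h1 : (κ / ℓ + 1) * ℓ ≤ u * ℓ := Nat.mul_le_mul_right ℓ hu1
    have h2 : (κ / ℓ + 1) * ℓ = ℓ * (κ / ℓ) + ℓ := by ring
    omega
  have huκ2 : u * ℓ ≤ κ + ℓ * P := by
    have h1 : u * ℓ ≤ (κ / ℓ + P) * ℓ := Nat.mul_le_mul_right ℓ (by omega)
    have h2 : (κ / ℓ + P) * ℓ = ℓ * (κ / ℓ) + ℓ * P := by ring
    omega
  have hexp : ℓ * (P + 2) = ℓ * P + 2 * ℓ := by ring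
  have huB : u * ℓ + ℓ ≤ kB := by omega
  have huA : kA ≤ u * ℓ := by omega
  -- monotonicity of Φ
  have hΓ0 : 0 ≤ Γ := (hΦ0 kA (le_refl _) (by omega)).trans (hΦ1 kA (le_refl _) (by omega))
  have hE0 : 0 ≤ E := (abs_nonneg _).trans (hF kA (le_refl _) (by omega))
  have hup : ∀ k, κ ≤ k → k ≤ kB → Φ k ≤ Φ κ + Γ * (k - κ : ℕ) := by
    intro k h1 h2
    have h3 := tele_upper Φ Γ κ (k - κ) (fun j hj1 hj2 => hΦ1 j (by omega) (by omega))
    rw [show κ + (k - κ) = k by omega] at h3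
    linarith
  have hmono : ∀ k k', kA ≤ k → k ≤ k' → k' ≤ kB → Φ k ≤ Φ k' := by
    intro k k' h1 h2 h3
    have h4 := tele_lower Φ 0 k (k' - k) (fun j hj1 hj2 => hΦ0 j (by omega) (by omega))
    rw [show k + (k' - k) = k' by omega] at h4
    linarith
  set T : ℝ := B - Ψ (j0 + L1) with hT
  have hΦlow : ∀ k, κ < k → k ≤ kB → T < Φ k := by
    intro k h1 h2
    exact lt_of_lt_of_le hκ4 (hmono (κ + 1) k (by omega) (by omega) h2)
  have hΦupp : ∀ k, κ ≤ k → k ≤ κ + ℓ * (P + 1) → Φ k ≤ T + ℓ * (P + 1) * Γ := by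
    intro k h1 h2
    have hexp2 : ℓ * (P + 1) = ℓ * P + ℓ := by ring
    have h3 := hup k h1 (by omega)
    have h4 : ((k - κ : ℕ) : ℝ) ≤ ((ℓ * (P + 1) : ℕ) : ℝ) := by
      exact_mod_cast (by omega : k - κ ≤ ℓ * (P + 1))
    have h5 : Γ * ((k - κ : ℕ) : ℝ) ≤ Γ * ((ℓ * (P + 1) : ℕ) : ℝ) := mul_le_mul_of_nonneg_left h4 hΓ0
    push_cast at h5
    have h6 : Γ * (↑ℓ * (↑P + 1)) = ℓ * (P + 1) * Γ := by ring
    linarith
  obtain ⟨R, hR, hRmod⟩ := hFmod u huA huB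
  -- the targets
  let v : ℕ → ℤ := fun k => B - F k
  have hexp2 : ℓ * (P + 1) = ℓ * P + ℓ := by ring
  have hvk0 : (v (u * ℓ) : ℝ) ≤ Ψ (j0 + L1) + E := by
    have h1 := hΦlow (u * ℓ) huκ1 (by omega)
    have h2 := hF (u * ℓ) huA (by omega)
    rw [abs_le] at h2
    simp only [v]
    push_cast
    rw [hT] at h1
    linarith [h2.1]
  have hvk1 : Ψ (j0 + L1) - ℓ * (P + 1) * Γ - E ≤ (v (u * ℓ + 2 * p) : ℝ) := by
    have h1 := hΦupp (u * ℓ + 2 * p) (by omega) (by omega)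
    have h2 := hF (u * ℓ + 2 * p) (by omega) (by omega)
    rw [abs_le] at h2
    simp only [v]
    push_cast
    rw [hT] at h1
    linarith [h2.2]
  have hL1 := tele_lower Ψ p j0 L1 (fun j hj1 hj2 => hlo j (by omega) (by omega))
  have hL2 := tele_lower Ψ p (j0 + L1) L2 (fun j hj1 hj2 => hlo j (by omega) (by omega))
  have hvlo : ⌊Ψ j0⌋ ≤ v (u * ℓ + 2 * p) := by
    have h1 : (⌊Ψ j0⌋ : ℝ) ≤ v (u * ℓ + 2 * p) := by
      have := Int.floor_le (Ψ j0)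
      linarith
    exact_mod_cast h1
  have hvhi : (v (u * ℓ) : ℝ) + 1 + (p + 1) * H ≤ Ψ (j0 + (L1 + L2)) := by
    rw [show j0 + (L1 + L2) = j0 + L1 + L2 by ring]
    linarith
  have hext : v (u * ℓ) - v (u * ℓ + 2 * p) + p ≤ p * H := by
    have h1 : ((v (u * ℓ) - v (u * ℓ + 2 * p) + p : ℤ) : ℝ) ≤ ((p * H : ℤ) : ℝ) := by
      push_cast
      have h2 := hF (u * ℓ) huA (by omega)
      have h3 := hF (u * ℓ + 2 * p) (by omega) (by omega)
      have h4 := tele_upper Φ Γ (u * ℓ) (2 * p) (fun j hj1 hj2 => hΦ1 j (by omega) (by omega))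
      rw [abs_le] at h2 h3
      simp only [v]
      push_cast
      push_cast at h4
      have h5 : Γ * (2 * (p : ℝ)) = 2 * p * Γ := by ring
      linarith [h2.1, h2.2, h3.1, h3.2]
    exact_mod_cast h1
  obtain ⟨k, j, hk1, hk2, hj1, hj2, hkj⟩ := block_hit p hp Ψ j0 (L1 + L2) H τ hτ hH hlo hhi v (u * ℓ)
    (fun k hk1 hk2 => by
      have := hFinc u huA huB k hk1 (by omega)
      simp only [v]
      linarith)
    hvlo hvhi hext R hR B
    (fun k hk1 hk2 => by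
      have h1 := hRmod k hk1 (by omega)
      have h2 : v k - (B - R * k) = -(F k - R * k) := by
        simp only [v]; ring
      rw [h2]
      exact (dvd_neg).mpr h1)
  refine ⟨u, k, j, hu3, huA, huB, hk1, by omega, hj1, hj2, ?_⟩
  simp only [v] at hkj
  linarith

noncomputable section S2

/-- modulus of scale `s` -/
def Md (g M0 s : ℕ) : ℕ := M0 * 2 ^ ((g + 1) * s)

/-- reference curve -/
def X (g : ℕ) (lam : ℝ) (n : ℕ) : ℝ := lam * (n : ℝ) ^ (g + 2)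

def bI (g M0 a p : ℕ) (lam : ℝ) (k : ℕ) : ℕ :=
  ⌊X g lam ((g + 2) * k) / Md g M0 (Nat.log 2 k - a)⌋₊ +
    (k + (p - 1) * ⌊X g lam ((g + 2) * k) / Md g M0 (Nat.log 2 k - a)⌋₊) % p

def aI (g M0 a c p : ℕ) (lam : ℝ) (k : ℕ) : ℕ :=
  Md g M0 (Nat.log 2 k - a) * bI g M0 a p lam k + (k / 2 ^ c) % 2 ^ ((Nat.log 2 k - a) / 2)

def aJ (g M0 d cL : ℕ) (lam : ℝ) (k : ℕ) : ℕ :=
  Md g M0 (Nat.log 2 k - d) * ⌊X g lam ((g + 2) * k + 1) / Md g M0 (Nat.log 2 k - d)⌋₊ +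
    2 ^ ((Nat.log 2 k - d) / 2) * ((k / (cL * 2 ^ ((Nat.log 2 k - d) / 2))) %
      (M0 * 2 ^ ((Nat.log 2 k - d) - (Nat.log 2 k - d) / 2)))

def aK (g M0 a : ℕ) (lam : ℝ) (i k : ℕ) : ℕ :=
  Md g M0 (Nat.log 2 k - a) * ⌊X g lam ((g + 2) * k + (i + 2)) / Md g M0 (Nat.log 2 k - a)⌋₊ +
    M0 * 2 ^ ((Nat.log 2 k - a) * (i + 1)) * (k % 2 ^ (Nat.log 2 k - a))

lemma Md_pos (g M0 s : ℕ) (hM : 0 < M0) : 0 < Md g M0 s := by
  unfold Md; positivity

lemma X_nonneg (g : ℕ) (lam : ℝ) (hlam : 0 < lam) (n : ℕ) : 0 ≤ X g lam n := by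
  unfold X; positivity

lemma floor_bounds (M : ℕ) (hM : 0 < M) (x : ℝ) (hx : 0 ≤ x) :
    (M : ℝ) * ⌊x / M⌋₊ ≤ x ∧ x < (M : ℝ) * ⌊x / M⌋₊ + M := by
  have hM' : (0 : ℝ) < M := by exact_mod_cast hM
  constructor
  · have := Nat.floor_le (div_nonneg hx hM'.le)
    calc (M : ℝ) * ⌊x / M⌋₊ ≤ M * (x / M) := mul_le_mul_of_nonneg_left this hM'.le
      _ = x := by field_simp
  · have := Nat.lt_floor_add_one (x / M)
    calc x = M * (x / M) := by field_simp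
      _ < M * (⌊x / M⌋₊ + 1) := mul_lt_mul_of_pos_left this hM'
      _ = _ := by ring

/-- error of `M * floor + label` -/
lemma err_floor (M : ℕ) (hM : 0 < M) (x : ℝ) (hx : 0 ≤ x) (l : ℕ) (hl : l < M) :
    |((M * ⌊x / M⌋₊ + l : ℕ) : ℝ) - x| ≤ M := by
  obtain ⟨h1, h2⟩ := floor_bounds M hM x hx
  have h3 : (l : ℝ) < M := by exact_mod_cast hl
  have h4 : (0 : ℝ) ≤ l := by positivity
  push_cast
  rw [abs_le]
  constructor <;> linarith

lemma aI_err (g M0 a c p : ℕ) (lam : ℝ) (k : ℕ) (hM : 0 < M0) (hp : 0 < p) (hlam : 0 < lam) :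
    |(aI g M0 a c p lam k : ℝ) - X g lam ((g + 2) * k)| ≤ p * Md g M0 (Nat.log 2 k - a) := by
  unfold aI bI
  set S := Nat.log 2 k - a
  set x := X g lam ((g + 2) * k)
  have hx : 0 ≤ x := X_nonneg g lam hlam _
  have hMd := Md_pos g M0 S hM
  set M := Md g M0 S
  obtain ⟨h1, h2⟩ := floor_bounds M hMd x hx
  set β := ⌊x / M⌋₊
  have h3 : (k + (p - 1) * β) % p < p := Nat.mod_lt _ hp
  have h4 : (k / 2 ^ c) % 2 ^ (S / 2) < M := by
    have h5 : (k / 2 ^ c) % 2 ^ (S / 2) < 2 ^ (S / 2) := Nat.mod_lt _ (by positivity)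
    have h6 : 2 ^ (S / 2) ≤ 2 ^ ((g + 1) * S) := by
      apply Nat.pow_le_pow_right (by norm_num)
      calc S / 2 ≤ S := Nat.div_le_self _ _
        _ ≤ (g + 1) * S := by nlinarith
    have h7 : 2 ^ ((g + 1) * S) ≤ M := Nat.le_mul_of_pos_left _ hM
    omega
  have h3' : (((k + (p - 1) * β) % p : ℕ) : ℝ) ≤ p - 1 := by
    have : (k + (p - 1) * β) % p ≤ p - 1 := by omega
    have h8 : (((k + (p - 1) * β) % p : ℕ) : ℝ) ≤ ((p - 1 : ℕ) : ℝ) := by exact_mod_cast this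
    rwa [Nat.cast_sub hp, Nat.cast_one] at h8
  have h4' : (((k / 2 ^ c) % 2 ^ (S / 2) : ℕ) : ℝ) < M := by exact_mod_cast h4
  have h9 : (0 : ℝ) ≤ (((k + (p - 1) * β) % p : ℕ) : ℝ) := by positivity
  have h10 : (0 : ℝ) ≤ (((k / 2 ^ c) % 2 ^ (S / 2) : ℕ) : ℝ) := by positivity
  have hMr : (0 : ℝ) < M := by exact_mod_cast hMd
  have hpr : (1 : ℝ) ≤ p := by exact_mod_cast hp
  rw [Nat.cast_add, Nat.cast_mul, Nat.cast_add]
  set δ := (((k + (p - 1) * β) % p : ℕ) : ℝ)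
  set l := (((k / 2 ^ c) % 2 ^ (S / 2) : ℕ) : ℝ)
  rw [abs_le]
  constructor
  · nlinarith
  · nlinarith

lemma aJ_err (g M0 d cL : ℕ) (lam : ℝ) (k : ℕ) (hM : 0 < M0) (hlam : 0 < lam) :
    |(aJ g M0 d cL lam k : ℝ) - X g lam ((g + 2) * k + 1)| ≤ Md g M0 (Nat.log 2 k - d) := by
  unfold aJ
  set s := Nat.log 2 k - d
  apply err_floor _ (Md_pos g M0 s hM) _ (X_nonneg g lam hlam _)
  have h1 : (k / (cL * 2 ^ (s / 2))) % (M0 * 2 ^ (s - s / 2)) < M0 * 2 ^ (s - s / 2) :=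
    Nat.mod_lt _ (by positivity)
  have h2 : 2 ^ (s / 2) * (M0 * 2 ^ (s - s / 2)) = M0 * 2 ^ s := by
    have : 2 ^ s = 2 ^ (s / 2) * 2 ^ (s - s / 2) := by
      rw [← pow_add]; congr 1; omega
    rw [this]; ring
  have h3 : M0 * 2 ^ s ≤ Md g M0 s := by
    unfold Md
    apply Nat.mul_le_mul_left
    apply Nat.pow_le_pow_right (by norm_num)
    nlinarith
  calc 2 ^ (s / 2) * ((k / (cL * 2 ^ (s / 2))) % (M0 * 2 ^ (s - s / 2)))
      < 2 ^ (s / 2) * (M0 * 2 ^ (s - s / 2)) := Nat.mul_lt_mul_of_pos_left h1 (by positivity)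
    _ = M0 * 2 ^ s := h2
    _ ≤ _ := h3

lemma aK_err (g M0 a : ℕ) (lam : ℝ) (i k : ℕ) (hi : i < g) (hM : 0 < M0) (hlam : 0 < lam) :
    |(aK g M0 a lam i k : ℝ) - X g lam ((g + 2) * k + (i + 2))| ≤ Md g M0 (Nat.log 2 k - a) := by
  unfold aK
  set s := Nat.log 2 k - a
  apply err_floor _ (Md_pos g M0 s hM) _ (X_nonneg g lam hlam _)
  have h1 : k % 2 ^ s < 2 ^ s := Nat.mod_lt _ (by positivity)
  have h3 : M0 * 2 ^ (s * (i + 1)) * 2 ^ s ≤ Md g M0 s := by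
    unfold Md
    rw [mul_assoc, ← pow_add]
    apply Nat.mul_le_mul_left
    apply Nat.pow_le_pow_right (by norm_num)
    nlinarith
  calc M0 * 2 ^ (s * (i + 1)) * (k % 2 ^ s)
      < M0 * 2 ^ (s * (i + 1)) * 2 ^ s := Nat.mul_lt_mul_of_pos_left h1 (by positivity)
    _ ≤ _ := h3

end S2

noncomputable section S3

lemma pow_diff_lower (x δ : ℝ) (hx : 0 ≤ x) (hδ : 0 ≤ δ) (n : ℕ) :
    (n + 1) * δ * x ^ n ≤ (x + δ) ^ (n + 1) - x ^ (n + 1) := by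
  induction n with
  | zero => simp
  | succ n ih =>
    have h1 : (x + δ) ^ (n + 1 + 1) - x ^ (n + 1 + 1) =
        (x + δ) * ((x + δ) ^ (n + 1) - x ^ (n + 1)) + δ * x ^ (n + 1) := by ring
    rw [h1]
    have h2 : x * ((n + 1) * δ * x ^ n) ≤ (x + δ) * ((x + δ) ^ (n + 1) - x ^ (n + 1)) := by
      apply mul_le_mul (by linarith) ih (by positivity) (by linarith)
    push_cast
    have h3 : ((n : ℝ) + 1 + 1) * δ * x ^ (n + 1) = x * ((n + 1) * δ * x ^ n) + δ * x ^ (n + 1) := by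
      ring
    rw [h3]
    linarith

lemma pow_diff_upper (x δ : ℝ) (hx : 0 ≤ x) (hδ : 0 ≤ δ) (n : ℕ) :
    (x + δ) ^ (n + 1) - x ^ (n + 1) ≤ (n + 1) * δ * (x + δ) ^ n := by
  induction n with
  | zero => simp
  | succ n ih =>
    have h1 : (x + δ) ^ (n + 1 + 1) - x ^ (n + 1 + 1) =
        (x + δ) * ((x + δ) ^ (n + 1) - x ^ (n + 1)) + δ * x ^ (n + 1) := by ring
    rw [h1]
    have h2 : (x + δ) * ((x + δ) ^ (n + 1) - x ^ (n + 1)) ≤ (x + δ) * ((n + 1) * δ * (x + δ) ^ n) :=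
      mul_le_mul_of_nonneg_left ih (by linarith)
    have h4 : δ * x ^ (n + 1) ≤ δ * (x + δ) ^ (n + 1) := by
      apply mul_le_mul_of_nonneg_left _ hδ
      exact pow_le_pow_left₀ hx (by linarith) _
    push_cast
    have h3 : ((n : ℝ) + 1 + 1) * δ * (x + δ) ^ (n + 1) =
        (x + δ) * ((n + 1) * δ * (x + δ) ^ n) + δ * (x + δ) ^ (n + 1) := by
      ring
    rw [h3]
    linarith

/-- normalised gap -/
def gam (g M0 d : ℕ) (lam : ℝ) : ℝ := lam * ((g : ℝ) + 2) ^ (g + 3) * 2 ^ (d * (g + 1)) / M0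

lemma gap_id (g M0 d s : ℕ) (lam : ℝ) (hM : 0 < M0) (y : ℝ) :
    lam * ((g : ℝ) + 2) ^ (g + 3) * y ^ (g + 1) / Md g M0 s =
      gam g M0 d lam * (y / 2 ^ (s + d)) ^ (g + 1) := by
  have hM' : (M0 : ℝ) ≠ 0 := by exact_mod_cast hM.ne'
  unfold gam Md
  push_cast
  rw [div_pow, ← pow_mul]
  have h1 : (2 : ℝ) ^ ((s + d) * (g + 1)) = 2 ^ ((g + 1) * s) * 2 ^ (d * (g + 1)) := by
    rw [← pow_add]; congr 1; ring
  rw [h1]
  field_simp

/-- row differences of the curve, type `t` -/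
lemma X_diff_lower (g : ℕ) (lam : ℝ) (hlam : 0 < lam) (k t : ℕ) :
    lam * ((g : ℝ) + 2) ^ (g + 3) * (k : ℝ) ^ (g + 1) ≤
      X g lam ((g + 2) * (k + 1) + t) - X g lam ((g + 2) * k + t) := by
  unfold X
  have h1 := pow_diff_lower ((g + 2 : ℝ) * k + t) (g + 2) (by positivity) (by positivity) (g + 1)
  push_cast at h1 ⊢
  have h2 : ((g + 2 : ℝ) * (k + 1) + t) = (g + 2 : ℝ) * k + t + (g + 2) := by ring
  rw [h2, ← mul_sub]
  have h3 : ((g + 2 : ℝ) * k) ^ (g + 1) ≤ ((g + 2 : ℝ) * k + t) ^ (g + 1) :=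
    pow_le_pow_left₀ (by positivity) (by linarith [(Nat.cast_nonneg t : (0:ℝ) ≤ t)]) _
  have h4 : lam * ((g : ℝ) + 2) ^ (g + 3) * (k : ℝ) ^ (g + 1) =
      lam * (((g : ℝ) + 1 + 1) * (g + 2) * ((g + 2 : ℝ) * k) ^ (g + 1)) := by
    rw [mul_pow]; ring
  rw [h4]
  apply mul_le_mul_of_nonneg_left _ hlam.le
  refine le_trans ?_ h1
  apply mul_le_mul_of_nonneg_left h3 (by positivity)

lemma X_diff_upper (g : ℕ) (lam : ℝ) (hlam : 0 < lam) (k t : ℕ) (m : ℕ)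
    (ht : t ≤ (g + 2) * m) :
    X g lam ((g + 2) * (k + 1) + t) - X g lam ((g + 2) * k + t) ≤
    lam * ((g : ℝ) + 2) ^ (g + 3) * ((k : ℝ) + 1 + m) ^ (g + 1) := by
  unfold X
  have h1 := pow_diff_upper ((g + 2 : ℝ) * k + t) (g + 2) (by positivity) (by positivity) (g + 1)
  push_cast at h1 ⊢
  have h2 : ((g + 2 : ℝ) * (k + 1) + t) = (g + 2 : ℝ) * k + t + (g + 2) := by ring
  rw [h2, ← mul_sub]
  have ht' : (t : ℝ) ≤ (g + 2) * m := by exact_mod_cast ht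
  have h3 : ((g + 2 : ℝ) * k + t + (g + 2)) ^ (g + 1) ≤ ((g + 2 : ℝ) * (k + 1 + m)) ^ (g + 1) :=
    pow_le_pow_left₀ (by positivity) (by linarith) _
  have h4 : lam * ((g : ℝ) + 2) ^ (g + 3) * ((k : ℝ) + 1 + m) ^ (g + 1) =
      lam * (((g : ℝ) + 1 + 1) * (g + 2) * ((g + 2 : ℝ) * (k + 1 + m)) ^ (g + 1)) := by
    rw [mul_pow]; ring
  rw [h4]
  apply mul_le_mul_of_nonneg_left _ hlam.le
  refine le_trans h1 ?_
  apply mul_le_mul_of_nonneg_left h3 (by positivity)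

lemma gap_lower (g M0 d s : ℕ) (lam : ℝ) (hlam : 0 < lam) (hM : 0 < M0) (k t e : ℕ)
    (hk : 2 ^ (s + d + e) ≤ k) :
    gam g M0 d lam * 2 ^ (e * (g + 1)) ≤
      X g lam ((g + 2) * (k + 1) + t) / Md g M0 s - X g lam ((g + 2) * k + t) / Md g M0 s := by
  have hMd : (0 : ℝ) < Md g M0 s := by exact_mod_cast Md_pos g M0 s hM
  rw [← sub_div]
  have h1 := X_diff_lower g lam hlam k t
  have h2 := div_le_div_of_nonneg_right h1 hMd.le
  rw [gap_id g M0 d s lam hM] at h2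
  refine le_trans ?_ h2
  have hg : 0 ≤ gam g M0 d lam := by unfold gam; positivity
  apply mul_le_mul_of_nonneg_left _ hg
  rw [pow_mul]
  apply pow_le_pow_left₀ (by positivity)
  rw [le_div_iff₀ (by positivity), ← pow_add]
  have : ((2 ^ (s + d + e) : ℕ) : ℝ) ≤ k := by exact_mod_cast hk
  push_cast at this
  rw [show e + (s + d) = s + d + e by ring]
  exact this

lemma gap_upper (g M0 d s : ℕ) (lam : ℝ) (hlam : 0 < lam) (hM : 0 < M0) (k t m : ℕ)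
    (ht : t ≤ (g + 2) * m) (ρ : ℝ)
    (hk : (k : ℝ) + 1 + m ≤ ρ * 2 ^ (s + d)) :
    X g lam ((g + 2) * (k + 1) + t) / Md g M0 s - X g lam ((g + 2) * k + t) / Md g M0 s ≤
    gam g M0 d lam * ρ ^ (g + 1) := by
  have hMd : (0 : ℝ) < Md g M0 s := by exact_mod_cast Md_pos g M0 s hM
  rw [← sub_div]
  have h1 := X_diff_upper g lam hlam k t m ht
  have h2 := div_le_div_of_nonneg_right h1 hMd.le
  rw [gap_id g M0 d s lam hM] at h2
  refine le_trans h2 ?_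
  have hg : 0 ≤ gam g M0 d lam := by unfold gam; positivity
  apply mul_le_mul_of_nonneg_left _ hg
  apply pow_le_pow_left₀ (by positivity)
  rw [div_le_iff₀ (by positivity)]
  exact hk

end S3

noncomputable section S4

lemma bI_err (g M0 a p : ℕ) (lam : ℝ) (k : ℕ) (hM : 0 < M0) (hp : 0 < p) (hlam : 0 < lam) :
    |((Md g M0 (Nat.log 2 k - a) * bI g M0 a p lam k : ℕ) : ℝ) - X g lam ((g + 2) * k)| ≤
      p * Md g M0 (Nat.log 2 k - a) := by
  unfold bI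
  set S := Nat.log 2 k - a
  set x := X g lam ((g + 2) * k)
  have hx : 0 ≤ x := X_nonneg g lam hlam _
  have hMd := Md_pos g M0 S hM
  set M := Md g M0 S
  obtain ⟨h1, h2⟩ := floor_bounds M hMd x hx
  set β := ⌊x / M⌋₊
  have h3 : (k + (p - 1) * β) % p < p := Nat.mod_lt _ hp
  have h3' : (((k + (p - 1) * β) % p : ℕ) : ℝ) ≤ p - 1 := by
    have : (k + (p - 1) * β) % p ≤ p - 1 := by omega
    have h8 : (((k + (p - 1) * β) % p : ℕ) : ℝ) ≤ ((p - 1 : ℕ) : ℝ) := by exact_mod_cast this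
    rwa [Nat.cast_sub hp, Nat.cast_one] at h8
  have h9 : (0 : ℝ) ≤ (((k + (p - 1) * β) % p : ℕ) : ℝ) := by positivity
  have hMr : (0 : ℝ) < M := by exact_mod_cast hMd
  have hpr : (1 : ℝ) ≤ p := by exact_mod_cast hp
  rw [Nat.cast_mul, Nat.cast_add]
  set δ := (((k + (p - 1) * β) % p : ℕ) : ℝ)
  rw [abs_le]
  constructor
  · nlinarith
  · nlinarith

lemma bI_mod (g M0 a p : ℕ) (lam : ℝ) (k : ℕ) (hp : 0 < p) :
    (p : ℤ) ∣ (bI g M0 a p lam k : ℤ) - k := by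
  unfold bI
  set β := ⌊X g lam ((g + 2) * k) / Md g M0 (Nat.log 2 k - a)⌋₊
  have h1 : (((k + (p - 1) * β) % p : ℕ) : ℤ) = (k + (p - 1) * β : ℤ) % p := by
    push_cast [Nat.cast_sub hp]
    rfl
  rw [Nat.cast_add, h1]
  have h2 : ((k : ℤ) + (p - 1) * β) % p = (k + (p - 1) * β) - p * ((k + (p - 1) * β) / p) := by
    have := Int.emod_add_mul_ediv ((k : ℤ) + (p - 1) * β) p
    linarith
  rw [h2]
  refine ⟨β - (k + (p - 1) * β) / p, ?_⟩
  ring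

/-- decomposition of a residue -/
lemma digits (g M0 s r : ℕ) (hM : 0 < M0) (hr : r < Md g M0 s) :
    ∃ (x y : ℕ) (z : Fin g → Fin (2 ^ s)), x < 2 ^ (s / 2) ∧ y < M0 * 2 ^ (s - s / 2) ∧
      r = x + 2 ^ (s / 2) * y + ∑ i : Fin g, M0 * 2 ^ (s * ((i : ℕ) + 1)) * (z i : ℕ) := by
  have hpos : 0 < M0 * 2 ^ s := by positivity
  have hr1 : r / (M0 * 2 ^ s) < (2 ^ s) ^ g := by
    apply Nat.div_lt_of_lt_mul
    have : M0 * 2 ^ s * (2 ^ s) ^ g = Md g M0 s := by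
      unfold Md
      rw [← pow_mul, mul_assoc, ← pow_add]
      congr 2; ring
    rw [this]; exact hr
  refine ⟨(r % (M0 * 2 ^ s)) % 2 ^ (s / 2), (r % (M0 * 2 ^ s)) / 2 ^ (s / 2),
    finFunctionFinEquiv.symm ⟨r / (M0 * 2 ^ s), hr1⟩, Nat.mod_lt _ (by positivity), ?_, ?_⟩
  · apply Nat.div_lt_of_lt_mul
    have h1 : r % (M0 * 2 ^ s) < M0 * 2 ^ s := Nat.mod_lt _ hpos
    have h2 : 2 ^ (s / 2) * (M0 * 2 ^ (s - s / 2)) = M0 * 2 ^ s := by
      have : 2 ^ s = 2 ^ (s / 2) * 2 ^ (s - s / 2) := by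
        rw [← pow_add]; congr 1; omega
      rw [this]; ring
    rw [h2]; exact h1
  · have h1 : ∑ i : Fin g, M0 * 2 ^ (s * ((i : ℕ) + 1)) *
        ((finFunctionFinEquiv.symm ⟨r / (M0 * 2 ^ s), hr1⟩ i : Fin (2 ^ s)) : ℕ) =
        M0 * 2 ^ s * (r / (M0 * 2 ^ s)) := by
      have h2 := finFunctionFinEquiv_apply (finFunctionFinEquiv.symm
        (⟨r / (M0 * 2 ^ s), hr1⟩ : Fin ((2 ^ s) ^ g)))
      rw [Equiv.apply_symm_apply] at h2
      have h3 : r / (M0 * 2 ^ s) = ∑ i : Fin g,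
        ((finFunctionFinEquiv.symm (⟨r / (M0 * 2 ^ s), hr1⟩ : Fin ((2 ^ s) ^ g)) i : Fin (2 ^ s)) : ℕ) *
          (2 ^ s) ^ (i : ℕ) := h2
      conv_rhs => rw [h3]
      rw [Finset.mul_sum]
      apply Finset.sum_congr rfl
      intro i _
      have h6 : 2 ^ (s * ((i : ℕ) + 1)) = 2 ^ s * (2 ^ s) ^ (i : ℕ) := by
        rw [pow_mul, pow_succ]; ring
      rw [h6]
      ring
    rw [h1]
    have h4 := Nat.div_add_mod r (M0 * 2 ^ s)
    have h5 := Nat.div_add_mod (r % (M0 * 2 ^ s)) (2 ^ (s / 2))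
    omega

lemma X_scale (g : ℕ) (lam : ℝ) (n e : ℕ) :
    X g lam (n * 2 ^ e) = X g lam n * 2 ^ (e * (g + 2)) := by
  unfold X
  push_cast
  rw [mul_pow, ← pow_mul]
  ring

lemma X_mono (g : ℕ) (lam : ℝ) (hlam : 0 < lam) (m n : ℕ) (h : m ≤ n) :
    X g lam m ≤ X g lam n := by
  unfold X
  apply mul_le_mul_of_nonneg_left _ hlam.le
  apply pow_le_pow_left₀ (by positivity)
  exact_mod_cast h

lemma log_two_eq (e k : ℕ) (h1 : 2 ^ e ≤ k) (h2 : k < 2 ^ (e + 1)) : Nat.log 2 k = e := by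
  rw [Nat.log_eq_iff (Or.inr ⟨by norm_num, by have := Nat.pos_of_ne_zero (pow_ne_zero e (two_ne_zero)); omega⟩)]
  exact ⟨h1, h2⟩

end S4

noncomputable section S5

structure Par (g M0 d δ c p cL H : ℕ) (lam ρ τ Γ E : ℝ) : Prop where
  hlam : 0 < lam
  hM0 : 0 < M0
  hp : 0 < p
  hpodd : Nat.Coprime 2 p
  hl : 2 * p < 2 ^ c
  hδ : 5 ≤ δ
  hg1 : (p : ℝ) ≤ gam g M0 d lam
  hρ0 : 0 ≤ ρ
  hρ1 : ρ ≤ 1
  hgρ : gam g M0 d lam * (1 + ρ) ^ (g + 1) ≤ p + τ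
  hτ : τ * H < 1
  hH : 1 ≤ H
  hcLρ : (8 : ℝ) * cL * M0 ≤ ρ * 2 ^ d
  hΓ : Γ = gam g M0 d lam * (2 ^ (δ + 6)) ^ (g + 1)
  hE : E = p * 2 ^ (6 * (g + 1))
  c1 : (9 : ℝ) * 2 ^ c * Γ + E ≤ p * cL
  c2 : Γ + E + 1 + (p + 1) * H ≤ p * cL
  c3 : 2 * p * Γ + 2 * E + p ≤ p * H

variable {g M0 d δ c p cL H : ℕ} {lam ρ τ Γ E : ℝ}

lemma Par.cL_lower (h : Par g M0 d δ c p cL H lam ρ τ Γ E) : 9 * 2 ^ c ≤ cL := by
  have hp : (0 : ℝ) < p := by exact_mod_cast h.hp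
  have h1 : (p : ℝ) ≤ Γ := by
    rw [h.hΓ]
    have h2 : (1 : ℝ) ≤ (2 ^ (δ + 6)) ^ (g + 1) := one_le_pow₀ (one_le_pow₀ (by norm_num))
    nlinarith [h.hg1]
  have hE : 0 ≤ E := by rw [h.hE]; positivity
  have h3 := h.c1
  have h4 : (9 : ℝ) * 2 ^ c * p ≤ p * cL := by
    have : (9 : ℝ) * 2 ^ c * p ≤ 9 * 2 ^ c * Γ := mul_le_mul_of_nonneg_left h1 (by positivity)
    linarith
  have h5 : (9 : ℝ) * 2 ^ c ≤ cL := by
    have : p * ((9 : ℝ) * 2 ^ c) ≤ p * cL := by linarith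
    exact le_of_mul_le_mul_left this hp
  exact_mod_cast h5

lemma Par.cL_upper (h : Par g M0 d δ c p cL H lam ρ τ Γ E) : 8 * cL * M0 ≤ 2 ^ d := by
  have h1 := h.hcLρ
  have h2 : ρ * 2 ^ d ≤ 2 ^ d := by
    have : (0 : ℝ) < 2 ^ d := by positivity
    nlinarith [h.hρ1]
  have h3 : (8 : ℝ) * cL * M0 ≤ 2 ^ d := h1.trans h2
  exact_mod_cast h3

/-- the I-values in units of `Md s` -/
def Fv (g M0 a p s : ℕ) (lam : ℝ) (k : ℕ) : ℕ :=
  2 ^ ((g + 1) * (Nat.log 2 k - a - s)) * bI g M0 a p lam k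

lemma Md_add (g M0 s e : ℕ) : Md g M0 (s + e) = Md g M0 s * 2 ^ ((g + 1) * e) := by
  unfold Md
  rw [mul_add, pow_add, mul_assoc]

lemma Fv_mul (a s k : ℕ) (hs : s ≤ Nat.log 2 k - a) :
    Md g M0 s * Fv g M0 a p s lam k = Md g M0 (Nat.log 2 k - a) * bI g M0 a p lam k := by
  unfold Fv
  have : Md g M0 (Nat.log 2 k - a) = Md g M0 s * 2 ^ ((g + 1) * (Nat.log 2 k - a - s)) := by
    rw [← Md_add]; congr 1; omega
  rw [this]; ring

lemma log_range (k e1 e2 : ℕ) (h1 : 2 ^ e1 ≤ k) (h2 : k ≤ 2 ^ e2) :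
    e1 ≤ Nat.log 2 k ∧ Nat.log 2 k ≤ e2 := by
  have hk : k ≠ 0 := by
    have : 0 < 2 ^ e1 := by positivity
    omega
  constructor
  · exact (Nat.le_log_iff_pow_le (by norm_num) hk).mpr h1
  · have := Nat.log_mono_right (b := 2) h2
    rwa [Nat.log_pow (by norm_num)] at this

lemma Fv_err (h : Par g M0 d δ c p cL H lam ρ τ Γ E) (s k : ℕ)
    (hk1 : 2 ^ (s + d + (δ + 3)) ≤ k) (hk2 : k ≤ 2 ^ (s + d + (δ + 6))) :
    |((Fv g M0 (d + δ) p s lam k : ℕ) : ℝ) - X g lam ((g + 2) * k) / Md g M0 s| ≤ E := by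
  obtain ⟨hl1, hl2⟩ := log_range k _ _ hk1 hk2
  have hMd : (0 : ℝ) < Md g M0 s := by exact_mod_cast Md_pos g M0 s h.hM0
  have h1 := bI_err g M0 (d + δ) p lam k h.hM0 h.hp h.hlam
  have hs : s ≤ Nat.log 2 k - (d + δ) := by omega
  have hs2 : Nat.log 2 k - (d + δ) - s ≤ 6 := by omega
  rw [← Fv_mul (d + δ) s k hs] at h1
  have h2 : Md g M0 (Nat.log 2 k - (d + δ)) =
      Md g M0 s * 2 ^ ((g + 1) * (Nat.log 2 k - (d + δ) - s)) := by
    rw [← Md_add]; congr 1; omega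
  rw [h2] at h1
  push_cast at h1
  have h3 : (Fv g M0 (d + δ) p s lam k : ℝ) - X g lam ((g + 2) * k) / Md g M0 s =
      ((Md g M0 s : ℝ) * Fv g M0 (d + δ) p s lam k - X g lam ((g + 2) * k)) / Md g M0 s := by
    field_simp
  rw [h3, abs_div, abs_of_pos hMd, div_le_iff₀ hMd]
  refine h1.trans ?_
  rw [h.hE]
  have h4 : (2 : ℝ) ^ ((g + 1) * (Nat.log 2 k - (d + δ) - s)) ≤ 2 ^ (6 * (g + 1)) := by
    apply pow_le_pow_right₀ (by norm_num)
    nlinarith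
  have hp : (0 : ℝ) < p := by exact_mod_cast h.hp
  calc (p : ℝ) * (Md g M0 s * 2 ^ ((g + 1) * (Nat.log 2 k - (d + δ) - s)))
      ≤ p * (Md g M0 s * 2 ^ (6 * (g + 1))) := by gcongr
    _ = _ := by ring

lemma Phi_gap (h : Par g M0 d δ c p cL H lam ρ τ Γ E) (s k : ℕ)
    (hk1 : 2 ^ (s + d + (δ + 3)) ≤ k) :
    4 * E ≤ X g lam ((g + 2) * (k + 1)) / Md g M0 s - X g lam ((g + 2) * k) / Md g M0 s := by
  have h1 := gap_lower g M0 d s lam h.hlam h.hM0 k 0 (δ + 3) hk1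
  simp only [add_zero] at h1
  refine le_trans ?_ h1
  rw [h.hE]
  have h2 : (2 : ℝ) ^ ((δ + 3) * (g + 1)) ≥ 4 * 2 ^ (6 * (g + 1)) := by
    have : (4 : ℝ) * 2 ^ (6 * (g + 1)) = 2 ^ (6 * (g + 1) + 2) := by rw [pow_add]; ring
    rw [this]
    apply pow_le_pow_right₀ (by norm_num)
    have := h.hδ
    nlinarith
  have h3 : (0 : ℝ) ≤ p := by positivity
  have h4 := h.hg1
  calc 4 * ((p : ℝ) * 2 ^ (6 * (g + 1))) = p * (4 * 2 ^ (6 * (g + 1))) := by ring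
    _ ≤ gam g M0 d lam * 2 ^ ((δ + 3) * (g + 1)) := by
        apply mul_le_mul h4 h2 (by positivity) (by linarith)

lemma Par.Epos (h : Par g M0 d δ c p cL H lam ρ τ Γ E) : 0 < E := by
  rw [h.hE]
  have : (0 : ℝ) < p := by exact_mod_cast h.hp
  positivity

lemma Fv_inc (h : Par g M0 d δ c p cL H lam ρ τ Γ E) (s k : ℕ)
    (hk1 : 2 ^ (s + d + (δ + 3)) ≤ k) (hk2 : k + 1 ≤ 2 ^ (s + d + (δ + 6))) :
    Fv g M0 (d + δ) p s lam k < Fv g M0 (d + δ) p s lam (k + 1) := by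
  have h1 := Phi_gap h s k hk1
  have h2 := Fv_err h s k hk1 (by omega)
  have h3 := Fv_err h s (k + 1) (by omega) hk2
  have hE := h.Epos
  rw [abs_le] at h2 h3
  have : ((Fv g M0 (d + δ) p s lam k : ℕ) : ℝ) < (Fv g M0 (d + δ) p s lam (k + 1) : ℕ) := by
    linarith [h2.1, h2.2, h3.1, h3.2]
  exact_mod_cast this

lemma Fv_mod (h : Par g M0 d δ c p cL H lam ρ τ Γ E) (s u : ℕ) (hu : 1 ≤ u) :
    ∃ R : ℕ, Nat.Coprime R p ∧
      ∀ k, u * 2 ^ c ≤ k → k < u * 2 ^ c + 2 ^ c →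
        (p : ℤ) ∣ (Fv g M0 (d + δ) p s lam k : ℤ) - R * k := by
  refine ⟨2 ^ ((g + 1) * (Nat.log 2 u + c - (d + δ) - s)), ?_, ?_⟩
  · exact Nat.Coprime.pow_left _ h.hpodd
  · intro k hk1 hk2
    have h1 : k / 2 ^ c = u := by
      apply Nat.div_eq_of_lt_le
      · exact hk1
      · rw [add_mul, one_mul]; exact hk2
    have h2 : Nat.log 2 k = Nat.log 2 u + c := by
      have h3 := Nat.log_div_base_pow 2 k c
      rw [h1] at h3
      have h4 : c ≤ Nat.log 2 k := by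
        apply (Nat.le_log_iff_pow_le (by norm_num) _).mpr
        · have : 2 ^ c ≤ u * 2 ^ c := Nat.le_mul_of_pos_left _ hu
          omega
        · have : 0 < 2 ^ c := by positivity
          have : 0 < u * 2 ^ c := by positivity
          omega
      omega
    unfold Fv
    rw [h2]
    have h5 := bI_mod g M0 (d + δ) p lam k h.hp
    push_cast
    have h6 : (2 : ℤ) ^ ((g + 1) * (Nat.log 2 u + c - (d + δ) - s)) * (bI g M0 (d + δ) p lam k : ℤ) -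
        2 ^ ((g + 1) * (Nat.log 2 u + c - (d + δ) - s)) * k =
        2 ^ ((g + 1) * (Nat.log 2 u + c - (d + δ) - s)) * ((bI g M0 (d + δ) p lam k : ℤ) - k) := by
      ring
    rw [h6]
    exact Dvd.dvd.mul_left h5 _

end S5

noncomputable section S6

variable {g M0 d δ c p cL H : ℕ} {lam ρ τ Γ E : ℝ}

lemma g_le_four (g : ℕ) : g ≤ 4 ^ g := (Nat.lt_pow_self (by norm_num)).le

/-- contribution of the one-to-one types -/
lemma K_sum (h : Par g M0 d δ c p cL H lam ρ τ Γ E) (s : ℕ) (z : Fin g → Fin (2 ^ s)) :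
    ∃ Bb : ℕ, ∑ i : Fin g, aK g M0 (d + δ) lam i (2 ^ (s + (d + δ)) + (z i : ℕ)) =
        Md g M0 s * Bb + ∑ i : Fin g, M0 * 2 ^ (s * ((i : ℕ) + 1)) * (z i : ℕ) ∧
      8 * ((Md g M0 s : ℝ) * Bb) ≤ X g lam ((g + 2) * 2 ^ (s + d + (δ + 3))) := by
  have hlog : ∀ i : Fin g, Nat.log 2 (2 ^ (s + (d + δ)) + (z i : ℕ)) - (d + δ) = s := by
    intro i
    have h1 : (z i : ℕ) < 2 ^ s := (z i).isLt
    have h2 : 2 ^ s ≤ 2 ^ (s + (d + δ)) := Nat.pow_le_pow_right (by norm_num) (by omega)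
    rw [log_two_eq (s + (d + δ)) _ (by omega) (by rw [pow_succ]; omega)]
    omega
  refine ⟨∑ i : Fin g, ⌊X g lam ((g + 2) * (2 ^ (s + (d + δ)) + (z i : ℕ)) + ((i : ℕ) + 2)) /
    Md g M0 s⌋₊, ?_, ?_⟩
  · rw [Finset.mul_sum, ← Finset.sum_add_distrib]
    apply Finset.sum_congr rfl
    intro i _
    unfold aK
    rw [hlog i]
    congr 2
    have h1 : (z i : ℕ) < 2 ^ s := (z i).isLt
    rw [pow_add, Nat.mul_add_mod, Nat.mod_eq_of_lt h1]
  · push_cast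
    rw [Finset.mul_sum, Finset.mul_sum]
    have hV : X g lam ((g + 2) * 2 ^ (s + d + (δ + 3))) =
        X g lam ((g + 2) * 2 ^ (s + (d + δ) + 1)) * 2 ^ (2 * (g + 2)) := by
      rw [← X_scale]; congr 1
      rw [mul_assoc, ← pow_add]; congr 2
      ring
    have hVn := X_nonneg g lam h.hlam ((g + 2) * 2 ^ (s + (d + δ) + 1))
    have hterm : ∀ i ∈ (Finset.univ : Finset (Fin g)), 8 * ((Md g M0 s : ℝ) *
        (⌊X g lam ((g + 2) * (2 ^ (s + (d + δ)) + (z i : ℕ)) + ((i : ℕ) + 2)) / Md g M0 s⌋₊ : ℝ)) ≤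
        8 * X g lam ((g + 2) * 2 ^ (s + (d + δ) + 1)) := by
      intro i _
      apply mul_le_mul_of_nonneg_left _ (by norm_num)
      refine (floor_bounds _ (Md_pos g M0 s h.hM0) _ (X_nonneg g lam h.hlam _)).1.trans ?_
      apply X_mono g lam h.hlam
      have h1 : (z i : ℕ) < 2 ^ s := (z i).isLt
      have h2 : 2 ^ s ≤ 2 ^ (s + (d + δ)) := Nat.pow_le_pow_right (by norm_num) (by omega)
      have h3 : (i : ℕ) < g := i.isLt
      have h4 : 2 ^ (s + (d + δ)) + (z i : ℕ) + 1 ≤ 2 ^ (s + (d + δ) + 1) := by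
        rw [pow_succ]; omega
      calc (g + 2) * (2 ^ (s + (d + δ)) + (z i : ℕ)) + ((i : ℕ) + 2)
          ≤ (g + 2) * (2 ^ (s + (d + δ)) + (z i : ℕ) + 1) := by rw [mul_add (g + 2) _ 1]; omega
        _ ≤ _ := Nat.mul_le_mul_left _ h4
    refine (Finset.sum_le_sum hterm).trans ?_
    rw [Finset.sum_const, Finset.card_univ, Fintype.card_fin, nsmul_eq_mul, hV]
    have h5 : (g : ℝ) ≤ 4 ^ g := by exact_mod_cast g_le_four g
    have h6 : (2 : ℝ) ^ (2 * (g + 2)) = 16 * 4 ^ g := by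
      rw [pow_mul]; norm_num; ring
    rw [h6]
    nlinarith

lemma aux1 (V M q B X1 N : ℝ) (hM : 0 < M) (hV : M ≤ V) (h1 : N < M * (q + 1)) (hN : 4 * V ≤ N)
    (hB : 8 * (M * B) ≤ V) (hX : X1 ≤ V / 8) : V / M ≤ q - B - X1 / M := by
  rw [div_le_iff₀ hM]
  have : (q - B - X1 / M) * M = q * M - B * M - X1 := by field_simp
  rw [this]
  nlinarith

lemma aux2 (g : ℕ) (V M q B X1 N : ℝ) (hM : 0 < M) (hV : 0 ≤ V) (h1 : M * q ≤ N)
    (hN : N < 4 * 2 ^ (g + 2) * V) (hB : 0 ≤ B) (hX : 0 ≤ X1) :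
    q - B - X1 / M < V * 2 ^ (2 * (g + 2)) / M := by
  rw [lt_div_iff₀ hM]
  have h0 : (q - B - X1 / M) * M = q * M - B * M - X1 := by field_simp
  rw [h0]
  have h3 : (2 : ℝ) ^ (2 * (g + 2)) = 2 ^ (g + 2) * 2 ^ (g + 2) := by rw [← pow_add]; congr 1; ring
  have h4 : (4 : ℝ) ≤ 2 ^ (g + 2) := by
    calc (4 : ℝ) = 2 ^ 2 := by norm_num
      _ ≤ _ := pow_le_pow_right₀ (by norm_num) (by omega)
  have h5 : 4 * 2 ^ (g + 2) * V ≤ V * 2 ^ (2 * (g + 2)) := by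
    rw [h3]
    have : 0 ≤ 2 ^ (g + 2) * V := by positivity
    nlinarith
  have h6 : 0 ≤ B * M := by positivity
  linarith

lemma aux3 (w A Γ E : ℝ) (hw : 1 ≤ w) (hA : 0 ≤ A) (hΓ : 0 ≤ Γ) (hE : 0 ≤ E) :
    A * (w * 2 ^ 3 + 1) * Γ + E ≤ w * (9 * A * Γ + E) := by
  have h1 : 0 ≤ A * Γ := by positivity
  nlinarith

lemma aux4 (g δ : ℕ) (V V' X1 : ℝ) (hδ : 5 ≤ δ) (h0 : 0 ≤ V') (h5 : X1 ≤ V')
    (h6 : V = V' * 2 ^ ((δ + 2) * (g + 2))) : X1 ≤ V / 8 := by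
  have h7 : (8 : ℝ) ≤ 2 ^ ((δ + 2) * (g + 2)) := by
    calc (8 : ℝ) = 2 ^ 3 := by norm_num
      _ ≤ _ := by
          apply pow_le_pow_right₀ (by norm_num)
          nlinarith
  rw [h6]
  nlinarith

lemma scale (h : Par g M0 d δ c p cL H lam ρ τ Γ E) (s N : ℕ)
    (hV : (Md g M0 s : ℝ) ≤ X g lam ((g + 2) * 2 ^ (s + d + (δ + 3))))
    (hN1 : 4 * X g lam ((g + 2) * 2 ^ (s + d + (δ + 3))) ≤ N)
    (hN2 : (N : ℝ) < 4 * 2 ^ (g + 2) * X g lam ((g + 2) * 2 ^ (s + d + (δ + 3)))) :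
    ∃ (kI kJ : ℕ) (kK : Fin g → ℕ),
      N = aI g M0 (d + δ) c p lam kI + aJ g M0 d (2 * cL) lam kJ +
        ∑ i : Fin g, aK g M0 (d + δ) lam i (kK i) ∧
      2 ^ (s + d) ≤ kI ∧ 2 ^ (s + d) ≤ kJ ∧ ∀ i, 2 ^ (s + d) ≤ kK i := by
  have hM0 := h.hM0
  have hMdpos := Md_pos g M0 s hM0
  have hMd : (0 : ℝ) < Md g M0 s := by exact_mod_cast hMdpos
  obtain ⟨x, y, z, hx, hy, hr⟩ := digits g M0 s (N % Md g M0 s) hM0 (Nat.mod_lt _ hMdpos)
  obtain ⟨Bb, hBb1, hBb2⟩ := K_sum h s z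
  -- J block
  have hs2 : 2 ^ s = 2 ^ (s / 2) * 2 ^ (s - s / 2) := by
    rw [← pow_add]; congr 1; omega
  have hcL1 := h.cL_lower
  have hcL2 := h.cL_upper
  have hc0 : 0 < 2 ^ c := by positivity
  have hcL0 : 0 < cL := by omega
  obtain ⟨v, hv1, hv2, hv3⟩ := exists_congr_ge (M0 * 2 ^ (s - s / 2)) (by positivity) y
    (2 ^ (s + d) / (2 * cL * 2 ^ (s / 2)) + 1) hy
  set L := 2 * cL * 2 ^ (s / 2) with hL
  have hLpos : 0 < L := by positivity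
  set U := 2 ^ (s + d) with hU
  have hdm := Nat.div_add_mod U L
  have hml := Nat.mod_lt U hLpos
  have hj0U : U < v * L := by
    have h1 : (U / L + 1) * L ≤ v * L := Nat.mul_le_mul_right L hv1
    have h2 : (U / L + 1) * L = L * (U / L) + L := by ring
    omega
  have hMs : M0 * 2 ^ (s - s / 2) * L = 2 * cL * M0 * 2 ^ s := by
    rw [hL, hs2]; ring
  have hLs : L ≤ 2 * cL * M0 * 2 ^ s := by
    rw [← hMs]
    apply Nat.le_mul_of_pos_left
    positivity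
  have hjend : v * L + L ≤ U + 4 * cL * M0 * 2 ^ s := by
    have h1 : v * L ≤ (U / L + M0 * 2 ^ (s - s / 2)) * L := Nat.mul_le_mul_right L (by omega)
    have h2 : (U / L + M0 * 2 ^ (s - s / 2)) * L = L * (U / L) + M0 * 2 ^ (s - s / 2) * L := by ring
    have h3 : 4 * cL * M0 * 2 ^ s = 2 * cL * M0 * 2 ^ s + 2 * cL * M0 * 2 ^ s := by ring
    omega
  have hcM : 1 ≤ cL * M0 * 2 ^ s := Nat.pos_of_ne_zero (by positivity)
  have hjend2 : v * L + L + 2 ≤ U + 8 * cL * M0 * 2 ^ s := by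
    have h3 : 8 * cL * M0 * 2 ^ s = 4 * cL * M0 * 2 ^ s + 4 * (cL * M0 * 2 ^ s) := by ring
    omega
  have h8U : 8 * cL * M0 * 2 ^ s ≤ U := by
    rw [hU, pow_add, mul_comm (2 ^ s) (2 ^ d)]
    exact Nat.mul_le_mul_right _ hcL2
  have hρU : (((8 * cL * M0 * 2 ^ s : ℕ)) : ℝ) ≤ ρ * (U : ℝ) := by
    rw [hU]
    push_cast
    rw [pow_add]
    have h1 := h.hcLρ
    have h2 : (0 : ℝ) < 2 ^ s := by positivity
    calc (8 : ℝ) * cL * M0 * 2 ^ s ≤ (ρ * 2 ^ d) * 2 ^ s := mul_le_mul_of_nonneg_right h1 h2.le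
      _ = _ := by ring
  -- the stage
  have hP : 0 < 2 ^ (s / 2 + 3) := by positivity
  have hs22 : 2 ^ (s / 2) ≤ 2 ^ s := Nat.pow_le_pow_right (by norm_num) (Nat.div_le_self _ _)
  have hXz := X_nonneg g lam h.hlam
  have hkB' : 2 ^ (s + d + (δ + 3)) < 2 ^ (s + d + (δ + 5)) :=
    Nat.pow_lt_pow_right (by norm_num) (by omega)
  have hkBB : 2 ^ (s + d + (δ + 5)) + 2 ^ c * (2 ^ (s / 2 + 3) + 2) ≤ 2 ^ (s + d + (δ + 6)) := by
    have h1 : 2 ^ (s + d + (δ + 6)) = 2 ^ (s + d + (δ + 5)) + 2 ^ (s + d + (δ + 5)) := by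
      rw [show s + d + (δ + 6) = s + d + (δ + 5) + 1 by ring, pow_succ]; ring
    rw [h1]
    apply Nat.add_le_add_left
    have h2 : 2 ^ (s + d) ≤ 2 ^ (s + d + (δ + 5)) := Nat.pow_le_pow_right (by norm_num) (by omega)
    have h3 : 1 ≤ 2 ^ (s / 2) := Nat.one_le_two_pow
    have h4 : 2 ^ c * (2 ^ (s / 2 + 3) + 2) ≤ 2 ^ c * (10 * 2 ^ (s / 2)) := by
      apply Nat.mul_le_mul_left
      rw [pow_add]; omega
    have h5 : 2 ^ c * (10 * 2 ^ (s / 2)) ≤ L := by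
      rw [hL]
      calc 2 ^ c * (10 * 2 ^ (s / 2)) = (10 * 2 ^ c) * 2 ^ (s / 2) := by ring
        _ ≤ (2 * cL) * 2 ^ (s / 2) := by
            apply Nat.mul_le_mul_right
            omega
    have h6 : 2 * cL * M0 * 2 ^ s ≤ 8 * cL * M0 * 2 ^ s := by
      have : 8 * cL * M0 * 2 ^ s = 2 * cL * M0 * 2 ^ s + 6 * cL * M0 * 2 ^ s := by ring
      omega
    omega
  have hgam0 : 0 ≤ gam g M0 d lam := le_trans (by positivity) h.hg1
  have hE0 := h.Epos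
  have hΓ0 : 0 ≤ Γ := by rw [h.hΓ]; positivity
  have hpr : (0 : ℝ) < p := by exact_mod_cast h.hp
  have h2s1 : (1 : ℝ) ≤ 2 ^ (s / 2) := one_le_pow₀ (by norm_num)
  obtain ⟨u, k, j, hu, huA, huB, hk1, hk2, hj1, hj2, hkj⟩ := stage p (2 ^ c) (2 ^ (s / 2 + 3)) h.hp h.hl hP
    (fun k => X g lam ((g + 2) * k) / Md g M0 s)
    (fun k => (Fv g M0 (d + δ) p s lam k : ℤ)) Γ E
    (2 ^ (s + d + (δ + 3))) (2 ^ (s + d + (δ + 6))) (2 ^ (s + d + (δ + 5))) hkB' hkBB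
    (fun k hk1 hk2 => by
      have := Phi_gap h s k hk1
      linarith)
    (fun k hk1 hk2 => by
      have h1 := gap_upper g M0 d s lam h.hlam hM0 k 0 0 (by omega) (2 ^ (δ + 6)) (by
        have : ((k + 1 : ℕ) : ℝ) ≤ ((2 ^ (s + d + (δ + 6)) : ℕ) : ℝ) := by exact_mod_cast hk2
        push_cast at this ⊢
        rw [← pow_add, show δ + 6 + (s + d) = s + d + (δ + 6) by ring]
        linarith)
      simp only [add_zero] at h1
      rw [h.hΓ]
      exact h1)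
    (fun k hk1 hk2 => by
      have := Fv_err h s k hk1 hk2
      push_cast at this ⊢
      exact this)
    (fun u hu1 hu2 k hk1 hk2 => by
      have := Fv_inc h s k (by omega) (by omega)
      exact_mod_cast this)
    (fun u hu1 hu2 => by
      have hu0 : 1 ≤ u := by
        by_contra hcon
        have : u = 0 := by omega
        subst this
        have : 0 < 2 ^ (s + d + (δ + 3)) := by positivity
        omega
      exact Fv_mod h s u hu0)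
    (fun j => X g lam ((g + 2) * j + 1) / Md g M0 s) (v * L) (cL * 2 ^ (s / 2)) (cL * 2 ^ (s / 2)) H τ
    h.hτ h.hH
    (fun j hj1 hj2 => by
      have h1 := gap_lower g M0 d s lam h.hlam hM0 j 1 0 (by simpa using (by omega : U ≤ j))
      simp only [zero_mul, pow_zero, mul_one] at h1
      exact h.hg1.trans h1)
    (fun j hj1 hj2 => by
      have hLL : L = cL * 2 ^ (s / 2) + cL * 2 ^ (s / 2) := by rw [hL]; ring
      have h1 := gap_upper g M0 d s lam h.hlam hM0 j 1 1 (by omega) (1 + ρ) (by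
        have h2 : j + 1 + 1 ≤ U + 8 * cL * M0 * 2 ^ s := by omega
        have h3 : ((j + 1 + 1 : ℕ) : ℝ) ≤ ((U + 8 * cL * M0 * 2 ^ s : ℕ) : ℝ) := by exact_mod_cast h2
        push_cast at h3 hρU ⊢
        have h4 : (U : ℝ) = 2 ^ (s + d) := by rw [hU]; push_cast; rfl
        rw [← h4]
        linarith)
      exact h1.trans h.hgρ)
    ((N / Md g M0 s : ℕ) - (Bb : ℕ) : ℤ)
    (by
      -- lower target bound
      push_cast
      have h1 : (N : ℝ) < Md g M0 s * ((N / Md g M0 s : ℕ) + 1) := by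
        have := Nat.lt_mul_div_succ N hMdpos
        exact_mod_cast this
      have h3 : (g + 2) * (v * L + cL * 2 ^ (s / 2)) + 1 ≤ (g + 2) * 2 ^ (s + d + 1) := by
        have h4 : v * L + cL * 2 ^ (s / 2) + 1 ≤ 2 ^ (s + d + 1) := by
          have hLL : L = cL * 2 ^ (s / 2) + cL * 2 ^ (s / 2) := by rw [hL]; ring
          rw [pow_succ, ← hU]; omega
        calc (g + 2) * (v * L + cL * 2 ^ (s / 2)) + 1 ≤ (g + 2) * (v * L + cL * 2 ^ (s / 2) + 1) := by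
              rw [mul_add (g + 2) _ 1]; omega
          _ ≤ _ := Nat.mul_le_mul_left _ h4
      have h5 := X_mono g lam h.hlam _ _ h3
      have h6 : X g lam ((g + 2) * 2 ^ (s + d + (δ + 3))) =
          X g lam ((g + 2) * 2 ^ (s + d + 1)) * 2 ^ ((δ + 2) * (g + 2)) := by
        rw [← X_scale]; congr 1
        rw [mul_assoc, ← pow_add]; congr 2; ring
      have h2 := aux4 g δ _ _ _ h.hδ (hXz ((g + 2) * 2 ^ (s + d + 1))) h5 h6
      exact aux1 _ _ _ _ _ _ hMd hV h1 hN1 hBb2 h2)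
    (by
      push_cast
      have h1 : (Md g M0 s : ℝ) * (N / Md g M0 s : ℕ) ≤ N := by
        have := Nat.mul_div_le N (Md g M0 s)
        exact_mod_cast this
      have h2 : X g lam ((g + 2) * 2 ^ (s + d + (δ + 5))) =
          X g lam ((g + 2) * 2 ^ (s + d + (δ + 3))) * 2 ^ (2 * (g + 2)) := by
        rw [← X_scale]; congr 1
        rw [mul_assoc, ← pow_add]; congr 2
      rw [h2]
      exact aux2 g _ _ _ _ _ _ hMd (hXz _) h1 hN2 (by positivity) (hXz _))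
    (by
      push_cast
      rw [pow_add]
      have h1 := h.c1
      have h3 := aux3 (2 ^ (s / 2)) (2 ^ c) Γ E h2s1 (by positivity) hΓ0 hE0.le
      calc (2 : ℝ) ^ c * (2 ^ (s / 2) * 2 ^ 3 + 1) * Γ + E ≤ 2 ^ (s / 2) * (9 * 2 ^ c * Γ + E) := h3
        _ ≤ 2 ^ (s / 2) * (p * cL) := mul_le_mul_of_nonneg_left h1 (by positivity)
        _ = _ := by ring)
    (by
      push_cast
      have h2 := h.c2
      have h3 : (p : ℝ) * cL ≤ p * (cL * 2 ^ (s / 2)) := by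
        apply mul_le_mul_of_nonneg_left _ hpr.le
        exact le_mul_of_one_le_right (by positivity) h2s1
      linarith)
    (by
      have := h.c3
      linarith)
    x (by
      calc x < 2 ^ (s / 2) := hx
        _ ≤ _ := Nat.pow_le_pow_right (by norm_num) (by omega))
  -- assemble
  have hkA : 2 ^ (s + d + (δ + 3)) ≤ k := by omega
  have hkB : k ≤ 2 ^ (s + d + (δ + 6)) := by omega
  obtain ⟨hl1, hl2⟩ := log_range k _ _ hkA hkB
  have hLL : L = cL * 2 ^ (s / 2) + cL * 2 ^ (s / 2) := by rw [hL]; ring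
  have hjU : U ≤ j := by omega
  have hj2U : j < 2 ^ (s + d + 1) := by
    rw [pow_succ, ← hU]; omega
  have hlogj : Nat.log 2 j - d = s := by
    rw [log_two_eq (s + d) j hjU hj2U]; omega
  refine ⟨k, j, fun i => 2 ^ (s + (d + δ)) + (z i : ℕ), ?_, ?_, hjU, ?_⟩
  · rw [hBb1]
    -- aI
    have hI : aI g M0 (d + δ) c p lam k = Md g M0 s * Fv g M0 (d + δ) p s lam k + x := by
      unfold aI
      rw [← Fv_mul (d + δ) s k (by omega)]
      congr 1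
      have h1 : k / 2 ^ c = u := by
        apply Nat.div_eq_of_lt_le
        · exact hk1
        · rw [add_mul, one_mul]; exact hk2
      rw [h1]
      have h2 : 2 ^ ((Nat.log 2 k - (d + δ)) / 2) ∣ 2 ^ (s / 2 + 3) := by
        apply Nat.pow_dvd_pow
        omega
      rw [← Nat.mod_mod_of_dvd u h2, hu]
      apply Nat.mod_eq_of_lt
      calc x < 2 ^ (s / 2) := hx
        _ ≤ _ := Nat.pow_le_pow_right (by norm_num) (by omega)
    have hJ : aJ g M0 d (2 * cL) lam j =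
        Md g M0 s * ⌊X g lam ((g + 2) * j + 1) / Md g M0 s⌋₊ + 2 ^ (s / 2) * y := by
      unfold aJ
      rw [hlogj]
      congr 2
      have h1 : j / (2 * cL * 2 ^ (s / 2)) = v := by
        apply Nat.div_eq_of_lt_le
        · exact hj1
        · rw [add_mul, one_mul, ← hL]; omega
      rw [h1, hv3]
    rw [hI, hJ]
    have hfl : ((⌊X g lam ((g + 2) * j + 1) / Md g M0 s⌋₊ : ℕ) : ℤ) =
        ⌊X g lam ((g + 2) * j + 1) / Md g M0 s⌋ :=
      Int.natCast_floor_eq_floor (div_nonneg (hXz _) hMd.le)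
    rw [← hfl] at hkj
    have hB : Fv g M0 (d + δ) p s lam k + ⌊X g lam ((g + 2) * j + 1) / Md g M0 s⌋₊ + Bb =
        N / Md g M0 s := by
      have : (Fv g M0 (d + δ) p s lam k : ℤ) +
        ((⌊X g lam ((g + 2) * j + 1) / Md g M0 s⌋₊ : ℕ) : ℤ) + Bb = ((N / Md g M0 s : ℕ) : ℤ) := by
        linarith
      exact_mod_cast this
    have hN := Nat.div_add_mod N (Md g M0 s)
    rw [← hB, hr] at hN
    rw [← hN]
    ring
  · have : 2 ^ (s + d) ≤ 2 ^ (s + d + (δ + 3)) := Nat.pow_le_pow_right (by norm_num) (by omega)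
    omega
  · intro i
    have : 2 ^ (s + d) ≤ 2 ^ (s + (d + δ)) := Nat.pow_le_pow_right (by norm_num) (by omega)
    show 2 ^ (s + d) ≤ 2 ^ (s + (d + δ)) + (z i : ℕ)
    omega

end S6

noncomputable section S7

variable {g M0 d δ c p cL H : ℕ} {lam ρ τ Γ E : ℝ}

/-- The regular sequence before modification of its first terms. -/
def aSeq (g M0 d δ c p cL : ℕ) (lam : ℝ) (n : ℕ) : ℕ :=
  if n % (g + 2) = 0 then aI g M0 (d + δ) c p lam (n / (g + 2))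
  else if n % (g + 2) = 1 then aJ g M0 d (2 * cL) lam (n / (g + 2))
  else aK g M0 (d + δ) lam (n % (g + 2) - 2) (n / (g + 2))

lemma aSeq_I (k : ℕ) : aSeq g M0 d δ c p cL lam ((g + 2) * k) = aI g M0 (d + δ) c p lam k := by
  unfold aSeq
  rw [if_pos (Nat.mul_mod_right _ _), Nat.mul_div_cancel_left _ (by omega)]

lemma aSeq_J (k : ℕ) : aSeq g M0 d δ c p cL lam ((g + 2) * k + 1) = aJ g M0 d (2 * cL) lam k := by
  unfold aSeq
  have h1 : ((g + 2) * k + 1) % (g + 2) = 1 := by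
    rw [Nat.mul_add_mod]; exact Nat.mod_eq_of_lt (by omega)
  have h2 : ((g + 2) * k + 1) / (g + 2) = k := by
    rw [Nat.mul_add_div (by omega)]
    rw [Nat.div_eq_of_lt (by omega : 1 < g + 2)]; rfl
  rw [h1, h2]
  simp

lemma aSeq_K (k i : ℕ) (hi : i < g) :
    aSeq g M0 d δ c p cL lam ((g + 2) * k + (i + 2)) = aK g M0 (d + δ) lam i k := by
  unfold aSeq
  have h1 : ((g + 2) * k + (i + 2)) % (g + 2) = i + 2 := by
    rw [Nat.mul_add_mod]; exact Nat.mod_eq_of_lt (by omega)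
  have h2 : ((g + 2) * k + (i + 2)) / (g + 2) = k := by
    rw [Nat.mul_add_div (by omega), Nat.div_eq_of_lt (by omega : i + 2 < g + 2)]; rfl
  rw [h1, h2]
  simp

lemma pMd (h : Par g M0 d δ c p cL H lam ρ τ Γ E) (S : ℕ) :
    (p : ℝ) * Md g M0 S ≤ lam * ((g : ℝ) + 2) ^ (g + 3) * (2 ^ (d + S)) ^ (g + 1) := by
  have h1 := h.hg1
  unfold gam at h1
  have hM : (0 : ℝ) < M0 := by exact_mod_cast h.hM0
  rw [le_div_iff₀ hM] at h1
  unfold Md
  push_cast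
  have h2 : ((2 : ℝ) ^ (d + S)) ^ (g + 1) = 2 ^ (d * (g + 1)) * 2 ^ ((g + 1) * S) := by
    rw [← pow_mul, ← pow_add]; congr 1; ring
  rw [h2]
  calc (p : ℝ) * (M0 * 2 ^ ((g + 1) * S)) = (p * M0) * 2 ^ ((g + 1) * S) := by ring
    _ ≤ (lam * ((g : ℝ) + 2) ^ (g + 3) * 2 ^ (d * (g + 1))) * 2 ^ ((g + 1) * S) :=
        mul_le_mul_of_nonneg_right h1 (by positivity)
    _ = _ := by ring

lemma errIK (h : Par g M0 d δ c p cL H lam ρ τ Γ E) (ε : ℝ) (hε : 0 < ε)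
    (hδ2 : ((g : ℝ) + 2) ^ 2 ≤ ε * 2 ^ δ) (S n : ℕ) (hn : (g + 2) * 2 ^ (S + d + δ) ≤ n) :
    (p : ℝ) * Md g M0 S ≤ ε * lam * (n : ℝ) ^ (g + 1) := by
  refine (pMd h S).trans ?_
  have hlam := h.hlam
  have h1 : (((g + 2) * 2 ^ (S + d + δ) : ℕ) : ℝ) ^ (g + 1) ≤ (n : ℝ) ^ (g + 1) :=
    pow_le_pow_left₀ (by positivity) (by exact_mod_cast hn) _
  push_cast at h1
  have h2 : ((g : ℝ) + 2) ^ 2 ≤ ε * (2 ^ δ) ^ (g + 1) := by
    refine hδ2.trans ?_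
    apply mul_le_mul_of_nonneg_left _ hε.le
    exact le_self_pow₀ (one_le_pow₀ (by norm_num)) (by omega)
  calc lam * ((g : ℝ) + 2) ^ (g + 3) * (2 ^ (d + S)) ^ (g + 1)
      = lam * ((g : ℝ) + 2) ^ (g + 1) * (2 ^ (d + S)) ^ (g + 1) * ((g : ℝ) + 2) ^ 2 := by ring
    _ ≤ lam * ((g : ℝ) + 2) ^ (g + 1) * (2 ^ (d + S)) ^ (g + 1) * (ε * (2 ^ δ) ^ (g + 1)) :=
        mul_le_mul_of_nonneg_left h2 (by positivity)
    _ = ε * lam * (((g : ℝ) + 2) * 2 ^ (S + d + δ)) ^ (g + 1) := by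
        rw [mul_pow, show S + d + δ = (d + S) + δ by ring, pow_add 2 (d + S) δ, mul_pow]
        ring
    _ ≤ _ := mul_le_mul_of_nonneg_left h1 (by positivity)

lemma errJ (h : Par g M0 d δ c p cL H lam ρ τ Γ E) (ε : ℝ) (hε : 0 < ε)
    (hp2 : ((g : ℝ) + 2) ^ 2 ≤ ε * p) (s n : ℕ) (hn : (g + 2) * 2 ^ (s + d) ≤ n) :
    (Md g M0 s : ℝ) ≤ ε * lam * (n : ℝ) ^ (g + 1) := by
  have hp : (0 : ℝ) < p := by exact_mod_cast h.hp
  have hlam := h.hlam
  have h1 : (((g + 2) * 2 ^ (s + d) : ℕ) : ℝ) ^ (g + 1) ≤ (n : ℝ) ^ (g + 1) :=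
    pow_le_pow_left₀ (by positivity) (by exact_mod_cast hn) _
  push_cast at h1
  have h3 : (p : ℝ) * Md g M0 s ≤ p * (ε * lam * (n : ℝ) ^ (g + 1)) := by
    refine (pMd h s).trans ?_
    calc lam * ((g : ℝ) + 2) ^ (g + 3) * (2 ^ (d + s)) ^ (g + 1)
        = lam * ((g : ℝ) + 2) ^ (g + 1) * (2 ^ (d + s)) ^ (g + 1) * ((g : ℝ) + 2) ^ 2 := by ring
      _ ≤ lam * ((g : ℝ) + 2) ^ (g + 1) * (2 ^ (d + s)) ^ (g + 1) * (ε * p) :=
          mul_le_mul_of_nonneg_left hp2 (by positivity)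
      _ = p * (ε * lam * (((g : ℝ) + 2) * 2 ^ (s + d)) ^ (g + 1)) := by
          rw [mul_pow, show s + d = d + s by ring]
          ring
      _ ≤ _ := by gcongr
  exact le_of_mul_le_mul_left h3 hp

lemma aSeq_err (h : Par g M0 d δ c p cL H lam ρ τ Γ E) (ε : ℝ) (hε : 0 < ε)
    (hδ2 : ((g : ℝ) + 2) ^ 2 ≤ ε * 2 ^ δ) (hp2 : ((g : ℝ) + 2) ^ 2 ≤ ε * p) (n : ℕ)
    (hn : (g + 2) * 2 ^ (d + δ) ≤ n) :
    |(aSeq g M0 d δ c p cL lam n : ℝ) - lam * (n : ℝ) ^ (g + 2)| ≤ ε * lam * (n : ℝ) ^ (g + 1) := by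
  obtain ⟨k, t, ht, rfl⟩ : ∃ k t, t < g + 2 ∧ n = (g + 2) * k + t :=
    ⟨n / (g + 2), n % (g + 2), Nat.mod_lt _ (by omega), (Nat.div_add_mod _ _).symm⟩
  have hk : 2 ^ (d + δ) ≤ k := by
    by_contra hcon
    push Not at hcon
    have h1 : (g + 2) * (k + 1) ≤ (g + 2) * 2 ^ (d + δ) := Nat.mul_le_mul_left _ hcon
    rw [mul_add (g + 2) k 1] at h1
    omega
  have hk0 : k ≠ 0 := by
    have : 0 < 2 ^ (d + δ) := by positivity
    omega
  have hlog : d + δ ≤ Nat.log 2 k := (Nat.le_log_iff_pow_le (by norm_num) hk0).mpr hk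
  have hlog2 : 2 ^ Nat.log 2 k ≤ k := Nat.pow_log_le_self 2 hk0
  have hX : ∀ m : ℕ, lam * (m : ℝ) ^ (g + 2) = X g lam m := fun _ => rfl
  have hlow : ∀ t', t' ≤ t → (g + 2) * k ≤ (g + 2) * k + t := fun _ _ => by omega
  rcases Nat.lt_trichotomy t 1 with ht1 | ht1 | ht1
  · have : t = 0 := by omega
    subst this
    rw [add_zero, hX, aSeq_I]
    refine (aI_err g M0 (d + δ) c p lam k h.hM0 h.hp h.hlam).trans ?_
    apply errIK h ε hε hδ2
    apply Nat.mul_le_mul_left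
    rw [show Nat.log 2 k - (d + δ) + d + δ = Nat.log 2 k by omega]
    exact hlog2
  · subst ht1
    rw [hX, aSeq_J]
    refine (aJ_err g M0 d (2 * cL) lam k h.hM0 h.hlam).trans ?_
    apply errJ h ε hε hp2
    refine le_trans ?_ (Nat.le_add_right _ _)
    apply Nat.mul_le_mul_left
    rw [show Nat.log 2 k - d + d = Nat.log 2 k by omega]
    exact hlog2
  · obtain ⟨i, rfl⟩ : ∃ i, t = i + 2 := ⟨t - 2, by omega⟩
    rw [hX, aSeq_K k i (by omega)]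
    refine (aK_err g M0 (d + δ) lam i k (by omega) h.hM0 h.hlam).trans ?_
    have h1 : (Md g M0 (Nat.log 2 k - (d + δ)) : ℝ) ≤ p * Md g M0 (Nat.log 2 k - (d + δ)) := by
      have hp : (1 : ℝ) ≤ p := by exact_mod_cast h.hp
      have : (0 : ℝ) ≤ Md g M0 (Nat.log 2 k - (d + δ)) := by positivity
      nlinarith
    refine h1.trans ?_
    apply errIK h ε hε hδ2
    refine le_trans ?_ (Nat.le_add_right _ _)
    apply Nat.mul_le_mul_left
    rw [show Nat.log 2 k - (d + δ) + d + δ = Nat.log 2 k by omega]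
    exact hlog2

lemma V_ge (h : Par g M0 d δ c p cL H lam ρ τ Γ E) (s : ℕ) :
    (Md g M0 s : ℝ) ≤ X g lam ((g + 2) * 2 ^ (s + d + (δ + 3))) := by
  have hlam := h.hlam
  have h1 := pMd h s
  have hp : (1 : ℝ) ≤ p := by exact_mod_cast h.hp
  have h2 : (Md g M0 s : ℝ) ≤ p * Md g M0 s := by
    have : (0 : ℝ) ≤ Md g M0 s := by positivity
    nlinarith
  refine (h2.trans h1).trans ?_
  unfold X
  push_cast
  have h3 : ((g : ℝ) + 2) ≤ 2 ^ (d + s) * 2 ^ ((δ + 3) * (g + 2)) := by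
    have h4 : g + 2 < 2 ^ (g + 2) := Nat.lt_two_pow_self
    have h5 : ((g + 2 : ℕ) : ℝ) ≤ ((2 ^ (g + 2) : ℕ) : ℝ) := by exact_mod_cast h4.le
    push_cast at h5
    have h6 : (2 : ℝ) ^ (g + 2) ≤ 2 ^ ((δ + 3) * (g + 2)) := by
      apply pow_le_pow_right₀ (by norm_num)
      nlinarith
    have h7 : (1 : ℝ) ≤ 2 ^ (d + s) := one_le_pow₀ (by norm_num)
    have h8 : (0 : ℝ) ≤ 2 ^ ((δ + 3) * (g + 2)) := by positivity
    nlinarith
  calc lam * ((g : ℝ) + 2) ^ (g + 3) * (2 ^ (d + s)) ^ (g + 1)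
      = lam * ((g : ℝ) + 2) ^ (g + 2) * (2 ^ (d + s)) ^ (g + 1) * ((g : ℝ) + 2) := by ring
    _ ≤ lam * ((g : ℝ) + 2) ^ (g + 2) * (2 ^ (d + s)) ^ (g + 1) *
        (2 ^ (d + s) * 2 ^ ((δ + 3) * (g + 2))) := mul_le_mul_of_nonneg_left h3 (by positivity)
    _ = _ := by
        rw [mul_pow, show s + d + (δ + 3) = (d + s) + (δ + 3) by ring, pow_add 2 (d + s), mul_pow,
          ← pow_mul 2 (δ + 3)]
        ring

/-- every large `N` is represented, with all summands of large index -/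
lemma represent (h : Par g M0 d δ c p cL H lam ρ τ Γ E) (n1 : ℕ) :
    ∃ N0 : ℕ, ∀ N ≥ N0, ∃ f : Fin (g + 2) → ℕ, (∀ i, n1 ≤ f i) ∧
      ∑ i, aSeq g M0 d δ c p cL lam (f i) = N := by
  have hlam := h.hlam
  set G : ℕ → ℝ := fun s => 4 * X g lam ((g + 2) * 2 ^ (s + d + (δ + 3))) with hG
  have hGs : ∀ s, G (s + 1) = 2 ^ (g + 2) * G s := by
    intro s
    simp only [hG]
    have : (g + 2) * 2 ^ (s + 1 + d + (δ + 3)) = ((g + 2) * 2 ^ (s + d + (δ + 3))) * 2 ^ 1 := by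
      rw [mul_assoc, ← pow_add]; congr 2; ring
    rw [this, X_scale]
    ring
  have hG0 : 0 < G 0 := by
    simp only [hG]; unfold X; positivity
  have hGlow : ∀ s, G 0 * 2 ^ s ≤ G s := by
    intro s
    induction s with
    | zero => simp
    | succ s ih =>
      rw [hGs, pow_succ]
      have h1 : (2 : ℝ) ≤ 2 ^ (g + 2) := by
        calc (2 : ℝ) = 2 ^ 1 := by norm_num
          _ ≤ _ := pow_le_pow_right₀ (by norm_num) (by omega)
      have h2 : 0 ≤ G 0 * 2 ^ s := by positivity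
      nlinarith
  refine ⟨⌈G n1⌉₊, ?_⟩
  intro N hN
  have hN' : G n1 ≤ N := Nat.ceil_le.mp hN
  obtain ⟨b, hb1, hb2⟩ : ∃ b, n1 < b ∧ (N : ℝ) < G b := by
    obtain ⟨b, hb⟩ := pow_unbounded_of_one_lt ((N : ℝ) / G 0) (by norm_num : (1 : ℝ) < 2)
    rw [div_lt_iff₀ hG0] at hb
    refine ⟨b + n1 + 1, by omega, ?_⟩
    calc (N : ℝ) < 2 ^ b * G 0 := hb
      _ ≤ G 0 * 2 ^ (b + n1 + 1) := by
          rw [mul_comm]
          apply mul_le_mul_of_nonneg_left _ hG0.le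
          exact pow_le_pow_right₀ (by norm_num) (by omega)
      _ ≤ _ := hGlow _
  obtain ⟨s, hs1, hs2, hs3, hs4⟩ := exists_between G n1 b (N : ℝ) hb1 hN' hb2
  rw [hGs] at hs4
  obtain ⟨kI, kJ, kK, hsum, hkI, hkJ, hkK⟩ := scale h s N (V_ge h s) hs3 (by
    simp only [hG] at hs4
    linarith)
  have hU : n1 ≤ 2 ^ (s + d) := by
    have h1 : s + d < 2 ^ (s + d) := Nat.lt_two_pow_self
    omega
  refine ⟨Fin.cons ((g + 2) * kI) (Fin.cons ((g + 2) * kJ + 1)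
    (fun i : Fin g => (g + 2) * kK i + ((i : ℕ) + 2))), ?_, ?_⟩
  · intro i
    refine Fin.cases ?_ (fun i => ?_) i
    · simp only [Fin.cons_zero]
      nlinarith
    · refine Fin.cases ?_ (fun i => ?_) i
      · simp only [Fin.cons_succ, Fin.cons_zero]
        nlinarith
      · simp only [Fin.cons_succ]
        have := hkK i
        nlinarith
  · rw [Fin.sum_univ_succ, Fin.sum_univ_succ]
    simp only [Fin.cons_zero, Fin.cons_succ]
    rw [aSeq_I, aSeq_J, hsum, ← add_assoc]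
    congr 1
    apply Finset.sum_congr rfl
    intro i _
    exact aSeq_K (kK i) i i.isLt

end S7

noncomputable section S8

/-- choice of the parameters -/
lemma exists_par (g : ℕ) (ε : ℝ) (hε : 0 < ε) :
    ∃ lam0 : ℝ, 0 < lam0 ∧ ∀ lam : ℝ, 0 < lam → lam ≤ lam0 →
      ∃ (M0 d δ c p cL H : ℕ) (ρ τ Γ E : ℝ), Par g M0 d δ c p cL H lam ρ τ Γ E ∧
        ((g : ℝ) + 2) ^ 2 ≤ ε * 2 ^ δ ∧ ((g : ℝ) + 2) ^ 2 ≤ ε * p := by
  -- δ and p
  obtain ⟨δ0, hδ0⟩ := pow_unbounded_of_one_lt (((g : ℝ) + 2) ^ 2 / ε) (by norm_num : (1 : ℝ) < 2)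
  rw [div_lt_iff₀ hε] at hδ0
  set δ := δ0 + 5 with hδdef
  have hδ2 : ((g : ℝ) + 2) ^ 2 ≤ ε * 2 ^ δ := by
    have : (2 : ℝ) ^ δ0 ≤ 2 ^ δ := pow_le_pow_right₀ (by norm_num) (by omega)
    nlinarith
  set c := δ0 + 2 with hcdef
  set p := 2 ^ (δ0 + 1) - 1 with hpdef
  have h2pos : 1 ≤ 2 ^ δ0 := Nat.one_le_two_pow
  have hpow1 : 2 ^ (δ0 + 1) = 2 ^ δ0 + 2 ^ δ0 := by rw [pow_succ]; ring
  have hpge : 2 ^ δ0 ≤ p := by omega
  have hp0 : 0 < p := by omega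
  have hpodd : Nat.Coprime 2 p := by
    rw [Nat.coprime_two_left]
    refine ⟨2 ^ δ0 - 1, ?_⟩
    omega
  have hl : 2 * p < 2 ^ c := by
    have : 2 ^ c = 2 ^ (δ0 + 1) + 2 ^ (δ0 + 1) := by rw [hcdef, pow_succ]; ring
    omega
  have hp2 : ((g : ℝ) + 2) ^ 2 ≤ ε * p := by
    have h1 : ((2 ^ δ0 : ℕ) : ℝ) ≤ p := by exact_mod_cast hpge
    push_cast at h1
    nlinarith
  have hpr : (1 : ℝ) ≤ p := by exact_mod_cast hp0
  -- Γ1, E, H, cL
  set Γ1 : ℝ := (p + 1) * (2 ^ (δ + 6)) ^ (g + 1) with hΓ1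
  set E : ℝ := p * 2 ^ (6 * (g + 1)) with hE
  have hΓ1pos : 0 < Γ1 := by positivity
  have hEpos : 0 < E := by positivity
  obtain ⟨H0, hH0⟩ := exists_nat_ge (2 * Γ1 + 2 * E + 1)
  set H := H0 + 1 with hHdef
  have hHr : (2 * Γ1 + 2 * E + 1) ≤ (H : ℝ) := by
    rw [hHdef]; push_cast; linarith
  obtain ⟨cL, hcL⟩ := exists_nat_ge ((9 : ℝ) * 2 ^ c * Γ1 + E + Γ1 + 1 + (p + 1) * H)
  have hcLpos : (0 : ℝ) < cL := lt_of_lt_of_le (by positivity) hcL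
  have hpcL : (cL : ℝ) ≤ p * cL := by nlinarith
  -- τ, ρ
  set τ : ℝ := 1 / (H + 1) with hτdef
  have hHpos : (0 : ℝ) < H := by rw [hHdef]; positivity
  have hτpos : 0 < τ := by positivity
  have hτH : τ * H < 1 := by
    rw [hτdef, div_mul_eq_mul_div, one_mul, div_lt_one (by positivity)]
    linarith
  have hτ1 : τ ≤ 1 := by
    rw [hτdef, div_le_one (by positivity)]; linarith
  obtain ⟨ρ, hρ0, hρ1, hρ⟩ : ∃ ρ : ℝ, 0 < ρ ∧ ρ ≤ 1 ∧ p * (1 + ρ) ^ (g + 2) ≤ p + τ := by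
    have hcont : Continuous (fun x : ℝ => (p : ℝ) * (1 + x) ^ (g + 2)) := by fun_prop
    have hlim := hcont.tendsto 0
    simp only [add_zero, one_pow, mul_one] at hlim
    have hev := hlim.eventually (gt_mem_nhds (by linarith : (p : ℝ) < p + τ))
    rw [Metric.eventually_nhds_iff] at hev
    obtain ⟨η, hη, hη2⟩ := hev
    refine ⟨min (η / 2) 1, by positivity, min_le_right _ _, ?_⟩
    have h1 : dist (min (η / 2) 1) 0 < η := by
      rw [Real.dist_eq, sub_zero, abs_of_pos (by positivity)]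
      exact lt_of_le_of_lt (min_le_left _ _) (by linarith)
    exact (hη2 h1).le
  -- M_*
  obtain ⟨Ms, hMs⟩ := exists_nat_ge (1 / ρ)
  have hMspos : (0 : ℝ) < Ms := lt_of_lt_of_le (by positivity) hMs
  have hMspos' : 0 < Ms := by exact_mod_cast hMspos
  set K : ℝ := 8 * cL * Ms * 2 ^ (g + 1) / ρ with hK
  have hcL1 : (1 : ℝ) ≤ cL := by
    have : (0 : ℝ) < 9 * 2 ^ c * Γ1 + E + Γ1 + (p + 1) * H := by positivity
    linarith
  have hMs1 : (1 : ℝ) ≤ Ms := by exact_mod_cast hMspos'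
  have hK1 : 1 < K := by
    rw [hK, lt_div_iff₀ hρ0]
    have h1 : (1 : ℝ) ≤ 2 ^ (g + 1) := one_le_pow₀ (by norm_num)
    have h2 : (1 : ℝ) ≤ cL * Ms := one_le_mul_of_one_le_of_one_le hcL1 hMs1
    have h3 : (1 : ℝ) ≤ cL * Ms * 2 ^ (g + 1) := one_le_mul_of_one_le_of_one_le h2 h1
    calc 1 * ρ ≤ 1 := by rw [one_mul]; exact hρ1
      _ < 8 * (cL * Ms * 2 ^ (g + 1)) := by linarith
      _ = _ := by ring
  have hKpos : 0 < K := by linarith
  refine ⟨p * Ms / (K ^ (g + 1) * ((g : ℝ) + 2) ^ (g + 3)), by positivity, ?_⟩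
  intro lam hlam hlam0
  set Q : ℝ := lam * ((g : ℝ) + 2) ^ (g + 3) / p with hQ
  have hQpos : 0 < Q := by positivity
  have hQK : Q * K ^ (g + 1) ≤ Ms := by
    rw [hQ]
    rw [le_div_iff₀ (by positivity)] at hlam0
    rw [div_mul_eq_mul_div, div_le_iff₀ (by positivity)]
    calc lam * ((g : ℝ) + 2) ^ (g + 3) * K ^ (g + 1) = lam * (K ^ (g + 1) * ((g : ℝ) + 2) ^ (g + 3)) := by
          ring
      _ ≤ p * Ms := hlam0
      _ = _ := by ring
  have hQMs : Q < Ms := by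
    have h1 : 1 < K ^ (g + 1) := one_lt_pow₀ hK1 (by omega)
    calc Q = Q * 1 := (mul_one Q).symm
      _ < Q * K ^ (g + 1) := mul_lt_mul_of_pos_left h1 hQpos
      _ ≤ Ms := hQK
  -- choice of d
  have hex : ∃ d : ℕ, (Ms : ℝ) ≤ Q * 2 ^ (d * (g + 1)) := by
    obtain ⟨d, hd⟩ := pow_unbounded_of_one_lt ((Ms : ℝ) / Q) (by norm_num : (1 : ℝ) < 2)
    rw [div_lt_iff₀ hQpos] at hd
    refine ⟨d, ?_⟩
    have h1 : (2 : ℝ) ^ d ≤ 2 ^ (d * (g + 1)) := by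
      apply pow_le_pow_right₀ (by norm_num)
      exact Nat.le_mul_of_pos_right d (by omega)
    calc (Ms : ℝ) ≤ 2 ^ d * Q := hd.le
      _ ≤ 2 ^ (d * (g + 1)) * Q := mul_le_mul_of_nonneg_right h1 hQpos.le
      _ = _ := mul_comm _ _
  classical
  set d := Nat.find hex with hd
  have hd1 : (Ms : ℝ) ≤ Q * 2 ^ (d * (g + 1)) := Nat.find_spec hex
  have hd0 : d ≠ 0 := by
    intro h0
    rw [h0] at hd1
    simp at hd1
    linarith
  have hd2 : Q * 2 ^ (d * (g + 1)) < Ms * 2 ^ (g + 1) := by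
    have h1 : ¬ ((Ms : ℝ) ≤ Q * 2 ^ ((d - 1) * (g + 1))) := Nat.find_min hex (by omega)
    push Not at h1
    have h2 : (2 : ℝ) ^ (d * (g + 1)) = 2 ^ ((d - 1) * (g + 1)) * 2 ^ (g + 1) := by
      rw [← pow_add]; congr 1
      obtain ⟨d', hd'⟩ : ∃ d', d = d' + 1 := ⟨d - 1, by omega⟩
      rw [hd']; simp; ring
    rw [h2, ← mul_assoc]
    exact mul_lt_mul_of_pos_right h1 (by positivity)
  set M0 := ⌊Q * 2 ^ (d * (g + 1))⌋₊ with hM0
  have hM0Ms : Ms ≤ M0 := Nat.le_floor hd1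
  have hM0pos : 0 < M0 := lt_of_lt_of_le hMspos' hM0Ms
  have hM0r : (0 : ℝ) < M0 := by exact_mod_cast hM0pos
  have hfl1 : (M0 : ℝ) ≤ Q * 2 ^ (d * (g + 1)) := Nat.floor_le (by positivity)
  have hfl2 : Q * 2 ^ (d * (g + 1)) < M0 + 1 := Nat.lt_floor_add_one _
  have hgam : gam g M0 d lam = p * (Q * 2 ^ (d * (g + 1)) / M0) := by
    unfold gam
    rw [hQ]
    field_simp
  have hgam1 : (p : ℝ) ≤ gam g M0 d lam := by
    rw [hgam]
    have : 1 ≤ Q * 2 ^ (d * (g + 1)) / M0 := by rw [le_div_iff₀ hM0r]; linarith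
    exact le_mul_of_one_le_right (by positivity) this
  have hgam2 : gam g M0 d lam ≤ p * (1 + ρ) := by
    rw [hgam]
    apply mul_le_mul_of_nonneg_left _ (by positivity)
    rw [div_le_iff₀ hM0r]
    have h1 : 1 ≤ ρ * M0 := by
      have h2 : 1 ≤ ρ * Ms := by
        rw [div_le_iff₀ hρ0] at hMs; linarith
      have h3 : (Ms : ℝ) ≤ M0 := by exact_mod_cast hM0Ms
      exact h2.trans (mul_le_mul_of_nonneg_left h3 hρ0.le)
    calc Q * 2 ^ (d * (g + 1)) ≤ M0 + 1 := hfl2.le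
      _ ≤ M0 + ρ * M0 := by linarith
      _ = (1 + ρ) * M0 := by ring
  have hgρ : gam g M0 d lam * (1 + ρ) ^ (g + 1) ≤ p + τ := by
    refine le_trans ?_ hρ
    calc gam g M0 d lam * (1 + ρ) ^ (g + 1) ≤ (p * (1 + ρ)) * (1 + ρ) ^ (g + 1) :=
          mul_le_mul_of_nonneg_right hgam2 (by positivity)
      _ = _ := by ring
  have hgam3 : gam g M0 d lam ≤ p + 1 := by
    have h1 : (1 : ℝ) ≤ (1 + ρ) ^ (g + 1) := one_le_pow₀ (by linarith)
    have h2 : 0 ≤ gam g M0 d lam := by linarith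
    have h3 := le_mul_of_one_le_right h2 h1
    linarith
  have hΓle : gam g M0 d lam * (2 ^ (δ + 6)) ^ (g + 1) ≤ Γ1 := by
    rw [hΓ1]
    exact mul_le_mul_of_nonneg_right hgam3 (by positivity)
  set Γ : ℝ := gam g M0 d lam * (2 ^ (δ + 6)) ^ (g + 1) with hΓ
  have hΓ0 : 0 ≤ Γ := by
    rw [hΓ]
    have : 0 ≤ gam g M0 d lam := by linarith
    positivity
  refine ⟨M0, d, δ, c, p, cL, H, ρ, τ, Γ, E, ?_, hδ2, hp2⟩
  refine ⟨hlam, hM0pos, hp0, hpodd, hl, by omega, hgam1, hρ0.le, hρ1, hgρ, hτH, by omega, ?_, hΓ, hE,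
    ?_, ?_, ?_⟩
  · -- 8 cL M0 ≤ ρ 2^d
    have h1 : K ^ (g + 1) ≤ ((2 : ℝ) ^ d) ^ (g + 1) := by
      rw [← pow_mul]
      have h2 : Q * K ^ (g + 1) ≤ Q * 2 ^ (d * (g + 1)) := hQK.trans hd1
      exact le_of_mul_le_mul_left h2 hQpos
    have h3 : K ≤ 2 ^ d := by
      by_contra hcon
      push Not at hcon
      have := pow_lt_pow_left₀ hcon (by positivity) (by omega : g + 1 ≠ 0)
      linarith
    rw [hK, div_le_iff₀ hρ0] at h3
    have h4 : (M0 : ℝ) ≤ Ms * 2 ^ (g + 1) := hfl1.trans hd2.le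
    calc (8 : ℝ) * cL * M0 ≤ 8 * cL * (Ms * 2 ^ (g + 1)) := by gcongr
      _ = 8 * cL * Ms * 2 ^ (g + 1) := by ring
      _ ≤ 2 ^ d * ρ := h3
      _ = _ := by ring
  · have h1 : (9 : ℝ) * 2 ^ c * Γ ≤ 9 * 2 ^ c * Γ1 := by gcongr
    have h2 : (0 : ℝ) ≤ (p + 1) * H := by positivity
    linarith
  · have h1 : (0 : ℝ) ≤ 9 * 2 ^ c * Γ1 := by positivity
    linarith
  · have h1 : (p : ℝ) * (2 * Γ1 + 2 * E + 1) ≤ p * H := by gcongr
    have h2 : 2 * p * Γ ≤ 2 * p * Γ1 := by gcongr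
    have h3 : 2 * E ≤ p * (2 * E) := le_mul_of_one_le_left (by positivity) hpr
    have h4 : (p : ℝ) * (2 * Γ1 + 2 * E + 1) = 2 * p * Γ1 + p * (2 * E) + p := by ring
    linarith

end S8

lemma nth_range (f : ℕ → ℕ) (hf : StrictMono f) (n : ℕ) : Nat.nth (· ∈ Set.range f) n = f n := by
  classical
  have h1 : Nat.count (· ∈ Set.range f) (f n) = n := by
    rw [Nat.count_eq_card_filter_range]
    have h2 : (Finset.range (f n)).filter (· ∈ Set.range f) = (Finset.range n).image f := by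
      ext x
      simp only [Finset.mem_filter, Finset.mem_range, Finset.mem_image, Set.mem_range]
      constructor
      · rintro ⟨h3, m, rfl⟩
        exact ⟨m, hf.lt_iff_lt.mp h3, rfl⟩
      · rintro ⟨m, hm, rfl⟩
        exact ⟨hf.lt_iff_lt.mpr hm, m, rfl⟩
    rw [h2, Finset.card_image_of_injective _ hf.injective, Finset.card_range]
  have h3 : Nat.nth (· ∈ Set.range f) (Nat.count (· ∈ Set.range f) (f n)) = f n :=
    Nat.nth_count ⟨n, rfl⟩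
  rwa [h1] at h3

/-- main statement with `h = g + 2`. -/
theorem main (g : ℕ) (ε : ℝ) (hε : 0 < ε) :
    ∃ lam0 : ℝ, 0 < lam0 ∧ ∀ lam : ℝ, 0 < lam → lam ≤ lam0 →
      ∃ A : Set ℕ, A.Infinite ∧
        (∃ n0 : ℕ, ∀ n ≥ n0, ∃ f : Fin (g + 2) → ℕ, (∀ i, f i ∈ A) ∧ ∑ i, f i = n) ∧
        (∀ᶠ n : ℕ in Filter.atTop,
          |(Nat.nth (· ∈ A) (n - 1) : ℝ) - lam * (n : ℝ) ^ (g + 2)| ≤ ε * lam * (n : ℝ) ^ (g + 1)) := by
  set ε' : ℝ := min ε (1 / 2 ^ (g + 3)) with hε'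
  have hε'0 : 0 < ε' := by positivity
  have hε'1 : ε' ≤ ε := min_le_left _ _
  have hε'2 : ε' ≤ 1 / 2 ^ (g + 3) := min_le_right _ _
  have hε'3 : ε' * 2 ^ (g + 1) ≤ 1 / 4 := by
    calc ε' * 2 ^ (g + 1) ≤ 1 / 2 ^ (g + 3) * 2 ^ (g + 1) := by gcongr
      _ = 1 / 4 := by
          rw [show g + 3 = (g + 1) + 2 by ring, pow_add]
          field_simp
          norm_num
  have hε'4 : ε' ≤ 1 / 4 := by
    have : (1 : ℝ) ≤ 2 ^ (g + 1) := one_le_pow₀ (by norm_num)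
    nlinarith
  obtain ⟨lam0, hlam0, hpar⟩ := exists_par g ε' hε'0
  refine ⟨lam0, hlam0, ?_⟩
  intro lam hlam hle
  obtain ⟨M0, d, δ, c, p, cL, H, ρ, τ, Γ, E, h, hδ2, hp2⟩ := hpar lam hlam hle
  set a : ℕ → ℕ := aSeq g M0 d δ c p cL lam with ha
  have herr := fun n hn => aSeq_err h ε' hε'0 hδ2 hp2 n hn
  -- threshold
  obtain ⟨n2, hn2⟩ := exists_nat_ge (2 / lam + 2)
  set n1 := (g + 2) * 2 ^ (d + δ) + n2 + 1 with hn1
  have hge : ∀ n, n1 ≤ n → n ≤ a n := by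
    intro n hn
    have h1 := herr n (by omega)
    rw [abs_le] at h1
    have h2 : ((n2 : ℕ) : ℝ) ≤ n := by exact_mod_cast (by omega : n2 ≤ n)
    have h3 : 2 / lam + 2 ≤ (n : ℝ) := hn2.trans h2
    have h4 : 2 ≤ lam * ((n : ℝ) - 1) := by
      have : 2 / lam ≤ (n : ℝ) - 1 := by linarith
      rw [div_le_iff₀ hlam] at this
      linarith
    have hn0 : (1 : ℝ) ≤ n := by
      have : 1 ≤ n := by omega
      exact_mod_cast this
    have h5 : (n : ℝ) ≤ (n : ℝ) ^ (g + 1) := le_self_pow₀ hn0 (by omega)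
    have h6 : (n : ℝ) ≤ a n := by
      have h7 : lam * (n : ℝ) ^ (g + 2) - ε' * lam * (n : ℝ) ^ (g + 1) =
          lam * ((n : ℝ) - ε') * (n : ℝ) ^ (g + 1) := by ring
      have h8 : 2 ≤ lam * ((n : ℝ) - ε') := by
        have : lam * ((n : ℝ) - 1) ≤ lam * ((n : ℝ) - ε') := by
          apply mul_le_mul_of_nonneg_left _ hlam.le; linarith
        linarith
      have h9 : (n : ℝ) ≤ lam * ((n : ℝ) - ε') * (n : ℝ) ^ (g + 1) := by nlinarith
      linarith [h1.1]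
    exact_mod_cast h6
  have hmono : ∀ n, n1 ≤ n → a n < a (n + 1) := by
    intro n hn
    have h1 := herr n (by omega)
    have h2 := herr (n + 1) (by omega)
    rw [abs_le] at h1 h2
    have hn0 : (1 : ℝ) ≤ n := by
      have : 1 ≤ n := by omega
      exact_mod_cast this
    have h3 := pow_diff_lower (n : ℝ) 1 (by positivity) (by norm_num) (g + 1)
    push_cast at h2 h3
    have h4 : ((n : ℝ) + 1) ^ (g + 1) ≤ 2 ^ (g + 1) * (n : ℝ) ^ (g + 1) := by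
      rw [← mul_pow]
      apply pow_le_pow_left₀ (by positivity)
      linarith
    have hpn : 0 < lam * (n : ℝ) ^ (g + 1) := by positivity
    have h5 : ε' * lam * ((n : ℝ) + 1) ^ (g + 1) ≤ 1 / 4 * (lam * (n : ℝ) ^ (g + 1)) := by
      calc ε' * lam * ((n : ℝ) + 1) ^ (g + 1) ≤ ε' * lam * (2 ^ (g + 1) * (n : ℝ) ^ (g + 1)) := by gcongr
        _ = (ε' * 2 ^ (g + 1)) * (lam * (n : ℝ) ^ (g + 1)) := by ring
        _ ≤ _ := mul_le_mul_of_nonneg_right hε'3 hpn.le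
    have h6 : ε' * lam * (n : ℝ) ^ (g + 1) ≤ 1 / 4 * (lam * (n : ℝ) ^ (g + 1)) := by
      calc ε' * lam * (n : ℝ) ^ (g + 1) = ε' * (lam * (n : ℝ) ^ (g + 1)) := by ring
        _ ≤ _ := mul_le_mul_of_nonneg_right hε'4 hpn.le
    have h7 : lam * ((n : ℝ) ^ (g + 1)) * (g + 2) ≤
        lam * ((n : ℝ) + 1) ^ (g + 2) - lam * (n : ℝ) ^ (g + 2) := by
      rw [← mul_sub]
      have : ((g : ℝ) + 1 + 1) * 1 * (n : ℝ) ^ (g + 1) = (n : ℝ) ^ (g + 1) * (g + 2) := by ring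
      rw [this] at h3
      rw [mul_assoc]
      exact mul_le_mul_of_nonneg_left h3 hlam.le
    have h8 : 2 * (lam * (n : ℝ) ^ (g + 1)) ≤ lam * ((n : ℝ) ^ (g + 1)) * (g + 2) := by
      have : (0 : ℝ) ≤ g := by positivity
      nlinarith
    have h9 : (a n : ℝ) < a (n + 1) := by
      have e1 := h1.2
      have e2 := h2.1
      linarith
    exact_mod_cast h9
  -- modified sequence
  set f : ℕ → ℕ := fun n => if n < n1 then n else a n with hf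
  have hfmono : StrictMono f := by
    apply strictMono_nat_of_lt_succ
    intro n
    simp only [hf]
    by_cases h1 : n + 1 < n1
    · rw [if_pos (by omega), if_pos h1]; omega
    · by_cases h2 : n < n1
      · rw [if_pos h2, if_neg h1]
        have h3 : n + 1 = n1 := by omega
        have := hge (n + 1) (by omega)
        omega
      · rw [if_neg h2, if_neg h1]
        exact hmono n (by omega)
  set f1 : ℕ → ℕ := fun n => f (n + 1) with hf1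
  have hf1mono : StrictMono f1 := fun m n hmn => hfmono (by omega)
  refine ⟨Set.range f1, Set.infinite_range_of_injective hf1mono.injective, ?_, ?_⟩
  · obtain ⟨N0, hN0⟩ := represent h n1
    refine ⟨N0, ?_⟩
    intro N hN
    obtain ⟨r, hr1, hr2⟩ := hN0 N hN
    refine ⟨fun i => a (r i), ?_, hr2⟩
    intro i
    refine ⟨r i - 1, ?_⟩
    simp only [hf1, hf]
    have := hr1 i
    rw [show r i - 1 + 1 = r i by omega, if_neg (by omega)]
  · filter_upwards [Filter.eventually_ge_atTop n1] with n hn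
    have h1 : n - 1 + 1 = n := by omega
    have h2 : Nat.nth (· ∈ Set.range f1) (n - 1) = a n := by
      rw [nth_range f1 hf1mono]
      simp only [hf1, hf]
      rw [h1, if_neg (by omega)]
    rw [h2]
    refine (herr n (by omega)).trans ?_
    have : (0 : ℝ) ≤ lam * (n : ℝ) ^ (g + 1) := by positivity
    nlinarith

end Pool.Agent.helper85.CasselsEps
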